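import Mathlib

/-!
Criteria for a prime to lie in the commuting conductor of a finite group.
-/

namespace H387CC

open Finset

noncomputable section

/-- The row of `g` in the commuting matrix. -/
def commRow (G : Type) [Group G] (g : G) : G → ℤ := by
  classical exact fun h => if g * h = h * g then 1 else 0

/-- The commuting difference lattice. -/
def M (G : Type) [Group G] : AddSubgroup (G → ℤ) :=
  AddSubgroup.closure {v | ∃ g g' : G, v = commRow G g - commRow G g'}

/-- The rank over `ℚ`. -/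
def rankQ {G : Type} (L : AddSubgroup (G → ℤ)) : ℕ :=
  Module.finrank ℚ (Submodule.span ℚ {w : G → ℚ | ∃ v ∈ L, w = fun g => (v g : ℚ)})

/-- The rank over `ZMod p` of the image in `G → ZMod p`. -/
def rankMod {G : Type} (p : ℕ) (L : AddSubgroup (G → ℤ)) : ℕ :=
  Module.finrank (ZMod p)
    (Submodule.span (ZMod p) {w : G → ZMod p | ∃ v ∈ L, w = fun g => (v g : ZMod p)})

/-- The commuting conductor. -/
def Ccomm (G : Type) [Group G] : Set ℕ := {p | p.Prime ∧ rankMod p (M G) < rankQ (M G)}

section Lattice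

variable {n : Type} [Fintype n]

theorem int_indep {ι : Type} [Fintype ι] {p : ℕ} (hp : p.Prime) (b : ι → n → ℤ)
    (hb : LinearIndependent (ZMod p) fun i => (fun g => (b i g : ZMod p))) :
    LinearIndependent ℤ b := by
  haveI := Fact.mk hp
  rw [Fintype.linearIndependent_iff] at hb ⊢
  have key : ∀ k : ℕ, ∀ c : ι → ℤ, ∑ i, c i • b i = 0 → ∀ i, (p : ℤ) ^ k ∣ c i := by
    intro k
    induction k with
    | zero => intro c _ i; simp
    | succ k ih =>
      intro c hc
      have h1 : ∀ i, (p : ℤ) ∣ c i := by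
        intro i
        have := hb (fun i => (c i : ZMod p)) (by
          funext g
          have h2 := congrFun hc g
          simp only [Finset.sum_apply, Pi.smul_apply, smul_eq_mul, Pi.zero_apply] at h2 ⊢
          have h3 := congrArg (Int.cast : ℤ → ZMod p) h2
          push_cast at h3
          exact h3) i
        exact (ZMod.intCast_zmod_eq_zero_iff_dvd _ _).1 this
      choose d hd using h1
      have hp0 : (p : ℤ) ≠ 0 := by exact_mod_cast hp.ne_zero
      have h4 : ∑ i, d i • b i = 0 := by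
        have h5 : (p : ℤ) • ∑ i, d i • b i = 0 := by
          rw [Finset.smul_sum, ← hc]
          refine Finset.sum_congr rfl fun i _ => ?_
          rw [smul_smul, ← hd i]
        exact (smul_eq_zero.1 h5).resolve_left hp0
      intro i
      rw [hd i, pow_succ, mul_comm ((p : ℤ) ^ k)]
      exact mul_dvd_mul_left _ (ih d h4 i)
  intro c hc i
  have h := key (c i).natAbs c hc i
  have hlt : |c i| < (p : ℤ) ^ (c i).natAbs := by
    have : (c i).natAbs < p ^ (c i).natAbs := Nat.lt_pow_self hp.one_lt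
    rw [Int.abs_eq_natAbs]
    exact_mod_cast this
  exact Int.eq_zero_of_abs_lt_dvd h hlt

/-- The cast of integer vectors to rational vectors. -/
def castQ : (n → ℤ) →ₗ[ℤ] (n → ℚ) := (Algebra.linearMap ℤ ℚ).compLeft n

theorem castQ_apply (v : n → ℤ) : castQ v = fun g => (v g : ℚ) := rfl

theorem rat_indep {ι : Type} (b : ι → n → ℤ) (hb : LinearIndependent ℤ b) :
    LinearIndependent ℚ fun i => (fun g => (b i g : ℚ)) := by
  have h1 : LinearIndependent ℤ (castQ ∘ b) := by
    refine hb.map' castQ ?_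
    rw [LinearMap.ker_eq_bot]
    intro v w h
    funext g
    have := congrFun h g
    simpa [castQ_apply] using this
  exact (LinearIndependent.iff_fractionRing ℤ ℚ).1 h1

/-- The rational span. -/
def spanQ {G : Type} (L : AddSubgroup (G → ℤ)) : Submodule ℚ (G → ℚ) :=
  Submodule.span ℚ {w : G → ℚ | ∃ v ∈ L, w = fun g => (v g : ℚ)}

theorem mem_spanQ (L : AddSubgroup (n → ℤ)) {v : n → ℤ} (hv : v ∈ L) :
    (fun g => (v g : ℚ)) ∈ spanQ L := Submodule.subset_span ⟨v, hv, rfl⟩

theorem card_le_rankQ {ι : Type} [Fintype ι] (L : AddSubgroup (n → ℤ)) (b : ι → n → ℤ)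
    (hL : ∀ i, (fun g => (b i g : ℚ)) ∈ spanQ L) (hb : LinearIndependent ℤ b) :
    Fintype.card ι ≤ rankQ L := by
  have h1 := rat_indep b hb
  let b' : ι → spanQ L := fun i => ⟨fun g => (b i g : ℚ), hL i⟩
  have h2 : LinearIndependent ℚ b' := by
    refine LinearIndependent.of_comp (spanQ L).subtype ?_
    exact h1
  exact h2.fintype_card_le_finrank

/-- A family in `L` with independent reductions, of size the rank modulo `p`. -/
theorem exists_family (L : AddSubgroup (n → ℤ)) {p : ℕ} (hp : p.Prime) :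
    ∃ (ι : Type) (_ : Fintype ι) (b : ι → n → ℤ), (∀ i, b i ∈ L) ∧
      (LinearIndependent (ZMod p) fun i => (fun g => (b i g : ZMod p))) ∧
      Fintype.card ι = rankMod p L ∧
      Submodule.span (ZMod p) {w : n → ZMod p | ∃ v ∈ L, w = fun g => (v g : ZMod p)} =
        Submodule.span (ZMod p) (Set.range fun i => (fun g => (b i g : ZMod p))) := by
  haveI := Fact.mk hp
  let S : Set (n → ZMod p) := {w | ∃ v ∈ L, w = fun g => (v g : ZMod p)}
  obtain ⟨t, hts, hspan, hli⟩ := exists_linearIndependent (ZMod p) S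
  haveI : Finite t := hli.finite
  haveI : Fintype t := Fintype.ofFinite t
  have hv : ∀ i : t, ∃ v ∈ L, (i : n → ZMod p) = fun g => (v g : ZMod p) := fun i => hts i.2
  choose b hbL hb using hv
  have hbe : (fun i => (fun g => (b i g : ZMod p))) = ((↑) : t → n → ZMod p) := by
    funext i; exact (hb i).symm
  refine ⟨t, inferInstance, b, hbL, ?_, ?_, ?_⟩
  · rw [hbe]; exact hli
  · have h1 := finrank_span_eq_card hli
    rw [← h1]
    unfold rankMod
    rw [Subtype.range_coe, hspan]
  · rw [hbe, Subtype.range_coe, hspan]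

theorem rankMod_le (L : AddSubgroup (n → ℤ)) {p : ℕ} (hp : p.Prime) : rankMod p L ≤ rankQ L := by
  obtain ⟨ι, _, b, hbL, hbi, hcard, _⟩ := exists_family L hp
  rw [← hcard]
  exact card_le_rankQ L b (fun i => mem_spanQ L (hbL i)) (int_indep hp b hbi)

theorem purity (L : AddSubgroup (n → ℤ)) {p : ℕ} (hp : p.Prime) (h : rankQ L ≤ rankMod p L)
    (w : n → ℤ) (hw : (fun g => (w g : ℚ)) ∈ spanQ L) :
    ∃ a : ℤ, ¬ (p : ℤ) ∣ a ∧ a • w ∈ L := by
  haveI := Fact.mk hp
  obtain ⟨ι, _, b, hbL, hbi, hcard, _⟩ := exists_family L hp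
  have hbZ := int_indep hp b hbi
  -- the enlarged family is dependent
  have hdep : ¬ LinearIndependent ℤ (fun o : Option ι => Option.elim o w b) := by
    intro hli
    have := card_le_rankQ L _ (by
      rintro (_ | i)
      · exact hw
      · exact mem_spanQ L (hbL i)) hli
    rw [Fintype.card_option] at this
    omega
  rw [Fintype.not_linearIndependent_iff] at hdep
  obtain ⟨c, hc, o, ho⟩ := hdep
  rw [Fintype.sum_option] at hc
  simp only [Option.elim] at hc
  have hc0 : c none ≠ 0 := by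
    intro h0
    rw [h0, zero_smul, zero_add] at hc
    have := Fintype.linearIndependent_iff.1 hbZ (fun i => c (some i)) hc
    rcases o with _ | i
    · exact ho h0
    · exact ho (this i)
  -- descent
  have key : ∀ k : ℕ, ∀ a : ℤ, ∀ d : ι → ℤ, a ≠ 0 → a.natAbs ≤ k → a • w = ∑ i, d i • b i →
      ∃ a' : ℤ, ¬ (p : ℤ) ∣ a' ∧ a' • w ∈ L := by
    intro k
    induction k with
    | zero => intro a d ha hk _; exfalso; apply ha; omega
    | succ k ih =>
      intro a d ha hk hrel
      by_cases hpa : (p : ℤ) ∣ a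
      · obtain ⟨a', rfl⟩ := hpa
        have h1 : ∀ i, (p : ℤ) ∣ d i := by
          intro i
          have := Fintype.linearIndependent_iff.1 hbi (fun i => (d i : ZMod p)) (by
            funext g
            have h2 := congrFun hrel g
            simp only [Finset.sum_apply, Pi.smul_apply, smul_eq_mul, Pi.zero_apply] at h2 ⊢
            have h3 := congrArg (Int.cast : ℤ → ZMod p) h2
            push_cast at h3
            rw [← h3]
            simp) i
          exact (ZMod.intCast_zmod_eq_zero_iff_dvd _ _).1 this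
        choose e he using h1
        have hp0 : (p : ℤ) ≠ 0 := by exact_mod_cast hp.ne_zero
        have ha' : a' ≠ 0 := by rintro rfl; simp at ha
        refine ih a' e ha' ?_ ?_
        · rw [Int.natAbs_mul, Int.natAbs_natCast] at hk
          have h2 := hp.two_le
          have h3 : 0 < a'.natAbs := Int.natAbs_pos.2 ha'
          nlinarith
        · have h5 : (p : ℤ) • (a' • w - ∑ i, e i • b i) = 0 := by
            rw [smul_sub, smul_smul, hrel, Finset.smul_sum, sub_eq_zero]
            refine Finset.sum_congr rfl fun i _ => ?_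
            rw [smul_smul, ← he i]
          exact sub_eq_zero.1 ((smul_eq_zero.1 h5).resolve_left hp0)
      · refine ⟨a, hpa, ?_⟩
        rw [hrel]
        exact L.sum_mem fun i _ => L.zsmul_mem (hbL i) _
  refine key (c none).natAbs (c none) (fun i => - c (some i)) hc0 le_rfl ?_
  rw [eq_neg_of_add_eq_zero_left hc, ← Finset.sum_neg_distrib]
  refine Finset.sum_congr rfl fun i _ => ?_
  rw [neg_smul]

end Lattice

section Alt

theorem even_of_alt_fin {n : ℕ} (A : Matrix (Fin n) (Fin n) (ZMod 2))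
    (hs : ∀ i j, A i j = A j i) (hd : ∀ i, A i i = 0) (hdet : A.det ≠ 0) : Even n := by
  by_contra hodd
  rw [Nat.not_even_iff_odd] at hodd
  obtain ⟨B, hBij⟩ : ∃ B : Matrix (Fin n) (Fin n) ℤ, ∀ i j, B i j =
      if i < j then ((A i j).val : ℤ) else if j < i then -((A j i).val : ℤ) else 0 :=
    ⟨Matrix.of fun i j =>
      if i < j then ((A i j).val : ℤ) else if j < i then -((A j i).val : ℤ) else 0,
      fun i j => rfl⟩
  have hB : B.transpose = -B := by
    ext i j
    rw [Matrix.transpose_apply, Matrix.neg_apply, hBij, hBij]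
    rcases lt_trichotomy i j with h | h | h
    · rw [if_neg (not_lt.2 h.le), if_pos h, if_pos h]
    · subst h; simp
    · rw [if_pos h, if_neg (not_lt.2 h.le), if_pos h, neg_neg]
  have hdB : B.det = 0 := by
    have h1 := Matrix.det_transpose B
    rw [hB, Matrix.det_neg, Fintype.card_fin, hodd.neg_one_pow] at h1
    linarith
  apply hdet
  have hmap : (Int.castRingHom (ZMod 2)).mapMatrix B = A := by
    ext i j
    rw [RingHom.mapMatrix_apply, Matrix.map_apply, hBij]
    rcases lt_trichotomy i j with h | h | h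
    · rw [if_pos h]; simp
    · subst h; simp [hd]
    · rw [if_neg (not_lt.2 h.le), if_pos h, hs i j]
      have h2 : ∀ z : ZMod 2, ((-((z.val : ℕ) : ℤ) : ℤ) : ZMod 2) = z := by decide
      exact h2 _
  rw [← hmap, ← RingHom.map_det, hdB, map_zero]

theorem even_of_alt {ι : Type} [Fintype ι] [DecidableEq ι] (A : Matrix ι ι (ZMod 2))
    (hs : ∀ i j, A i j = A j i) (hd : ∀ i, A i i = 0) (hdet : A.det ≠ 0) :
    Even (Fintype.card ι) := by
  let e := Fintype.equivFin ι
  refine even_of_alt_fin (A.submatrix e.symm e.symm) (fun i j => hs _ _) (fun i => hd _) ?_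
  rwa [Matrix.det_submatrix_equiv_self]

end Alt

section Comm

variable {G : Type} [Group G]

/-- Zero if `g` and `h` commute, one otherwise. -/
def nc (g h : G) : ℤ := by
  classical exact if g * h = h * g then 0 else 1

theorem nc_symm (g h : G) : nc g h = nc h g := by
  unfold nc
  by_cases h1 : g * h = h * g
  · rw [if_pos h1, if_pos h1.symm]
  · rw [if_neg h1, if_neg fun h2 => h1 h2.symm]

theorem nc_self (g : G) : nc g g = 0 := by
  unfold nc; rw [if_pos rfl]

theorem commRow_eq (g : G) : commRow G g = fun h => 1 - nc g h := by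
  funext h
  unfold commRow nc
  by_cases h1 : g * h = h * g
  · rw [if_pos h1, if_pos h1]; rfl
  · rw [if_neg h1, if_neg h1]; rfl

theorem row_mem (g : G) : (fun h => nc g h) ∈ M G := by
  refine AddSubgroup.subset_closure ⟨1, g, ?_⟩
  funext h
  rw [Pi.sub_apply, commRow_eq, commRow_eq]
  simp [nc]

variable [Fintype G]

theorem mem_M_of (x : G → ℤ) : (fun h => ∑ g, x g * nc g h) ∈ M G := by
  have : (fun h => ∑ g, x g * nc g h) = ∑ g, x g • (fun h => nc g h) := by
    funext h
    simp [Finset.sum_apply]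
  rw [this]
  exact (M G).sum_mem fun g _ => (M G).zsmul_mem (row_mem g) _

theorem exists_of_mem {v : G → ℤ} (hv : v ∈ M G) :
    ∃ x : G → ℤ, v = fun h => ∑ g, x g * nc g h := by
  classical
  induction hv using AddSubgroup.closure_induction with
  | mem v hv =>
    obtain ⟨g, g', rfl⟩ := hv
    refine ⟨Pi.single g' 1 - Pi.single g 1, ?_⟩
    funext h
    rw [Pi.sub_apply, commRow_eq, commRow_eq]
    simp only [Pi.sub_apply, sub_mul, Finset.sum_sub_distrib]
    rw [Finset.sum_eq_single g' (fun b _ hb => by simp [hb]) (by simp),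
      Finset.sum_eq_single g (fun b _ hb => by simp [hb]) (by simp)]
    simp
  | zero => exact ⟨0, by funext h; simp⟩
  | add v w _ _ h1 h2 =>
    obtain ⟨x, rfl⟩ := h1
    obtain ⟨y, rfl⟩ := h2
    exact ⟨x + y, by funext h; simp [add_mul, Finset.sum_add_distrib]⟩
  | neg v _ h1 =>
    obtain ⟨x, rfl⟩ := h1
    exact ⟨-x, by funext h; simp⟩

theorem quad_even (v : G → ℤ) : (2 : ℤ) ∣ ∑ h, v h * ∑ g, v g * nc g h := by
  classical
  refine (ZMod.intCast_zmod_eq_zero_iff_dvd _ 2).1 ?_
  push_cast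
  simp only [Finset.mul_sum]
  rw [← Finset.sum_product']
  refine Finset.sum_involution (fun a _ => (a.2, a.1)) ?_ ?_ ?_ ?_
  · rintro ⟨a, b⟩ _
    simp only
    rw [nc_symm a b]
    have : ∀ x y z : ZMod 2, x * (y * z) + y * (x * z) = 0 := by decide
    exact this _ _ _
  · rintro ⟨a, b⟩ _ h1 h2
    simp only [Prod.mk.injEq] at h2
    apply h1
    simp only
    rw [h2.1, nc_self]
    simp
  · rintro ⟨a, b⟩ _
    exact Finset.mem_product.2 ⟨Finset.mem_univ _, Finset.mem_univ _⟩
  · rintro ⟨a, b⟩ _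
    rfl

theorem core {p : ℕ} (hp : p.Prime) (c : ℕ) (f : G → ℤ)
    (hf : ∀ h, (p : ℤ) ^ c ∣ ∑ g, f g * nc g h) (hpc : p ∉ Ccomm G) :
    ∃ a : ℤ, ¬ (p : ℤ) ∣ a ∧ ∃ v : G → ℤ,
      a * (a * ∑ h, f h * ∑ g, f g * nc g h) =
        (p : ℤ) ^ c * ((p : ℤ) ^ c * ∑ h, v h * ∑ g, v g * nc g h) := by
  have hle : rankQ (M G) ≤ rankMod p (M G) := by
    by_contra h
    exact hpc ⟨hp, not_le.1 h⟩
  choose w hw using hf
  have hq : (p : ℤ) ^ c ≠ 0 := pow_ne_zero _ (by exact_mod_cast hp.ne_zero)
  have hwM : (fun g => (w g : ℚ)) ∈ spanQ (M G) := by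
    have h1 := mem_spanQ (M G) (mem_M_of f)
    have h2 : (fun g => (w g : ℚ)) =
        ((((p : ℤ) ^ c : ℤ) : ℚ))⁻¹ • (fun h => ((∑ g, f g * nc g h : ℤ) : ℚ)) := by
      have hq' : (((p : ℤ) ^ c : ℤ) : ℚ) ≠ 0 := by exact_mod_cast hq
      funext h
      rw [Pi.smul_apply, smul_eq_mul, hw h, Int.cast_mul, ← mul_assoc, inv_mul_cancel₀ hq', one_mul]
    rw [h2]
    exact Submodule.smul_mem _ _ h1
  obtain ⟨a, ha, haM⟩ := purity (M G) hp hle w hwM
  obtain ⟨v, hv⟩ := exists_of_mem haM
  have hv' : ∀ h, a * w h = ∑ g, v g * nc g h := fun h => congrFun hv h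
  refine ⟨a, ha, v, ?_⟩
  have h1 : a * ∑ h, f h * ∑ g, f g * nc g h =
      (p : ℤ) ^ c * ((p : ℤ) ^ c * ∑ g, v g * w g) := by
    calc a * ∑ h, f h * ∑ g, f g * nc g h
        = ∑ h, f h * ((p : ℤ) ^ c * (a * w h)) := by
          rw [Finset.mul_sum]
          refine Finset.sum_congr rfl fun h _ => ?_
          rw [hw h]; ring
      _ = (p : ℤ) ^ c * ∑ h, ∑ g, f h * (v g * nc g h) := by
          rw [Finset.mul_sum]
          refine Finset.sum_congr rfl fun h _ => ?_
          rw [hv' h, ← Finset.mul_sum]; ring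
      _ = (p : ℤ) ^ c * ∑ g, v g * ∑ h, f h * nc h g := by
          rw [Finset.sum_comm]
          congr 1
          refine Finset.sum_congr rfl fun g _ => ?_
          rw [Finset.mul_sum]
          refine Finset.sum_congr rfl fun h _ => ?_
          rw [nc_symm g h]; ring
      _ = (p : ℤ) ^ c * ((p : ℤ) ^ c * ∑ g, v g * w g) := by
          congr 1
          rw [Finset.mul_sum]
          refine Finset.sum_congr rfl fun g _ => ?_
          rw [hw g]; ring
  rw [h1]
  calc a * ((p : ℤ) ^ c * ((p : ℤ) ^ c * ∑ g, v g * w g))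
      = (p : ℤ) ^ c * ((p : ℤ) ^ c * ∑ g, v g * (a * w g)) := by
        have : ∑ g, v g * (a * w g) = a * ∑ g, v g * w g := by
          rw [Finset.mul_sum]
          exact Finset.sum_congr rfl fun g _ => by ring
        rw [this]; ring
    _ = _ := by
        congr 2
        exact Finset.sum_congr rfl fun g _ => by rw [hv' g]

theorem odd_rank (h : Odd (rankQ (M G))) : 2 ∈ Ccomm G := by
  classical
  refine ⟨Nat.prime_two, ?_⟩
  refine lt_of_le_of_ne (rankMod_le _ Nat.prime_two) ?_
  intro heq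
  rw [← heq] at h
  obtain ⟨ι, _, b, hbL, hbi, hcard, hspan⟩ := exists_family (M G) Nat.prime_two
  rw [← hcard] at h
  choose x hx using fun i => exists_of_mem (hbL i)
  let A : Matrix ι ι (ZMod 2) := fun i j => ((∑ h, x i h * ∑ g, x j g * nc g h : ℤ) : ZMod 2)
  have hsym : ∀ i j, A i j = A j i := by
    intro i j
    simp only [A]
    congr 1
    simp only [Finset.mul_sum]
    rw [Finset.sum_comm]
    refine Finset.sum_congr rfl fun g _ => Finset.sum_congr rfl fun h _ => ?_
    rw [nc_symm g h]; ring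
  have hdiag : ∀ i, A i i = 0 := fun i =>
    (ZMod.intCast_zmod_eq_zero_iff_dvd _ 2).2 (quad_even (x i))
  refine Nat.not_even_iff_odd.2 h (even_of_alt A hsym hdiag ?_)
  intro hdet
  obtain ⟨c, hc0, hc⟩ := Matrix.exists_mulVec_eq_zero_iff.2 hdet
  apply hc0
  haveI : Fact (Nat.Prime 2) := ⟨Nat.prime_two⟩
  -- the functional `y ↦ Σ_h y(h) (Σ_j c_j x_j)(h)` vanishes on the span
  let φ : (G → ZMod 2) →ₗ[ZMod 2] ZMod 2 :=
    ∑ j, c j • ∑ h, ((x j h : ℤ) : ZMod 2) • LinearMap.proj h
  have hφ : ∀ y : G → ZMod 2, φ y = ∑ j, c j * ∑ h, ((x j h : ℤ) : ZMod 2) * y h := by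
    intro y
    simp [φ, LinearMap.sum_apply]
  have hφb : ∀ i, φ (fun g => (b i g : ZMod 2)) = 0 := by
    intro i
    rw [hφ]
    have h1 := congrFun hc i
    simp only [Matrix.mulVec, dotProduct, Pi.zero_apply] at h1
    rw [← h1]
    refine Finset.sum_congr rfl fun j _ => ?_
    rw [hsym i j]
    simp only [A]
    rw [mul_comm]
    congr 1
    push_cast
    refine Finset.sum_congr rfl fun h _ => ?_
    rw [congrFun (hx i) h]
    push_cast
    rfl
  have hφall : ∀ y ∈ Submodule.span (ZMod 2)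
      {w : G → ZMod 2 | ∃ v ∈ M G, w = fun g => (v g : ZMod 2)}, φ y = 0 := by
    intro y hy
    rw [hspan] at hy
    induction hy using Submodule.span_induction with
    | mem y hy => obtain ⟨i, rfl⟩ := hy; exact hφb i
    | zero => exact map_zero φ
    | add y z _ _ h1 h2 => rw [map_add, h1, h2, add_zero]
    | smul a y _ h1 => rw [map_smul, h1, smul_zero]
  have hfin := Fintype.linearIndependent_iff.1 hbi c (by
    funext g
    have h1 := hφall (fun h => ((nc g h : ℤ) : ZMod 2))
      (Submodule.subset_span ⟨_, row_mem g, rfl⟩)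
    rw [hφ] at h1
    rw [Finset.sum_apply, Pi.zero_apply, ← h1]
    refine Finset.sum_congr rfl fun j _ => ?_
    rw [Pi.smul_apply, smul_eq_mul, congrFun (hx j) g]
    congr 1
    push_cast
    refine Finset.sum_congr rfl fun h _ => ?_
    rw [nc_symm h g])
  funext j
  exact hfin j

theorem sum_nc (h : G) :
    ∑ g, nc g h = (Nat.card G : ℤ) - Nat.card {g : G // Commute g h} := by
  classical
  have h1 : ∀ g : G, nc g h = 1 - if Commute g h then 1 else 0 := by
    intro g
    unfold nc
    by_cases h1 : g * h = h * g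
    · have h2 : Commute g h := h1
      rw [if_pos h1, if_pos h2]; rfl
    · have h2 : ¬ Commute g h := h1
      rw [if_neg h1, if_neg h2]; rfl
  rw [Finset.sum_congr rfl fun g _ => h1 g, Finset.sum_sub_distrib, Finset.sum_boole,
    Nat.card_eq_fintype_card, Nat.card_eq_fintype_card, Fintype.card_subtype]
  simp

theorem total_nc : ∑ h : G, ∑ g : G, nc g h =
    (Nat.card G : ℤ) ^ 2 - Nat.card G * Nat.card (ConjClasses G) := by
  classical
  have h1 := card_comm_eq_card_conjClasses_mul_card G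
  have h2 : Nat.card {p : G × G // Commute p.1 p.2} = ∑ h : G, Nat.card {g : G // Commute g h} := by
    rw [Nat.card_congr (Equiv.subtypeProdEquivSigmaSubtype Commute), Nat.card_sigma]
    refine Finset.sum_congr rfl fun h _ => ?_
    exact Nat.card_congr (Equiv.subtypeEquivRight fun g => ⟨fun h => h.symm, fun h => h.symm⟩)
  rw [Finset.sum_congr rfl fun h _ => sum_nc h, Finset.sum_sub_distrib]
  have h3 : ∑ h : G, (Nat.card {g : G // Commute g h} : ℤ) =
      Nat.card (ConjClasses G) * Nat.card G := by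
    rw [← Nat.cast_mul, ← h1, h2]; push_cast; rfl
  rw [h3]
  simp only [Finset.sum_const, Finset.card_univ, nsmul_eq_mul, Nat.card_eq_fintype_card]
  ring

/-- The number of elements in the conjugacy class of `x`. -/
def classSize (x : G) : ℕ := Nat.card {y : G // IsConj x y}

theorem classSize_mul (x : G) :
    classSize x * Nat.card {g : G // Commute g x} = Nat.card G := by
  classical
  have h1 := MulAction.card_orbit_mul_card_stabilizer_eq_card_group (ConjAct G) x
  have h2 : Nat.card {y : G // IsConj x y} = Fintype.card (MulAction.orbit (ConjAct G) x) := by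
    rw [← Nat.card_eq_fintype_card]
    refine Nat.card_congr (Equiv.subtypeEquivRight fun y => ?_)
    rw [ConjAct.mem_orbit_conjAct]
    exact isConj_comm
  have h3 : Nat.card {g : G // Commute g x} =
      Fintype.card (MulAction.stabilizer (ConjAct G) x) := by
    rw [← Nat.card_eq_fintype_card]
    refine Nat.card_congr (ConjAct.toConjAct.toEquiv.subtypeEquiv fun g => ?_)
    rw [MulAction.mem_stabilizer_iff]
    change Commute g x ↔ g * x * g⁻¹ = x
    rw [mul_inv_eq_iff_eq_mul]
    rfl
  unfold classSize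
  rw [h2, h3, h1, Nat.card_eq_fintype_card]
  rfl

theorem general {p : ℕ} (hp : p.Prime) (c : ℕ)
    (hc : ∀ x : G, (p : ℤ) ^ c ∣ (Nat.card G : ℤ) - Nat.card {g : G // Commute g x})
    (hpc : p ∉ Ccomm G) :
    (p : ℤ) ^ (2 * c) ∣ (Nat.card G : ℤ) ^ 2 - Nat.card G * Nat.card (ConjClasses G) ∧
    (p = 2 → (2 : ℤ) ^ (2 * c + 1) ∣
      (Nat.card G : ℤ) ^ 2 - Nat.card G * Nat.card (ConjClasses G)) := by
  obtain ⟨a, ha, v, hv⟩ := core hp c (fun _ : G => (1 : ℤ)) (by
    intro h
    simp only [one_mul]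
    rw [sum_nc]
    exact hc h) hpc
  simp only [one_mul] at hv
  rw [total_nc] at hv
  obtain ⟨m, hm⟩ := quad_even v
  have hpI : Prime (p : ℤ) := Nat.prime_iff_prime_int.1 hp
  have hcop : IsCoprime ((p : ℤ)) a := (hpI.coprime_iff_not_dvd).2 ha
  constructor
  · have h1 : (p : ℤ) ^ (2 * c) ∣
        a * (a * ((Nat.card G : ℤ) ^ 2 - Nat.card G * Nat.card (ConjClasses G))) := by
      rw [hv]
      exact ⟨∑ h, v h * ∑ g, v g * nc g h, by ring⟩
    exact (hcop.pow_left).dvd_of_dvd_mul_left ((hcop.pow_left).dvd_of_dvd_mul_left h1)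
  · rintro rfl
    have h1 : (2 : ℤ) ^ (2 * c + 1) ∣
        a * (a * ((Nat.card G : ℤ) ^ 2 - Nat.card G * Nat.card (ConjClasses G))) := by
      rw [hv, hm]
      refine ⟨m, ?_⟩
      push_cast
      ring
    exact (hcop.pow_left).dvd_of_dvd_mul_left ((hcop.pow_left).dvd_of_dvd_mul_left h1)

end Comm

section Brauer

theorem comm_pow_left {G : Type} [Group G] {z q x : G} (hz : ∀ g, z * g = g * z)
    (h : q * x = z * (x * q)) (j : ℕ) : q ^ j * x = z ^ j * (x * q ^ j) := by
  have hzj : ∀ (j : ℕ) (g : G), z ^ j * g = g * z ^ j := fun j g =>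
    ((show Commute z g from hz g).pow_left j).eq
  induction j with
  | zero => simp
  | succ j ih =>
    calc q ^ (j + 1) * x = q ^ j * (q * x) := by rw [pow_succ, mul_assoc]
      _ = q ^ j * (z * (x * q)) := by rw [h]
      _ = z * (q ^ j * x * q) := by rw [← mul_assoc, ← hz]; group
      _ = z * (z ^ j * (x * q ^ j) * q) := by rw [ih]
      _ = z ^ (j + 1) * (x * q ^ (j + 1)) := by rw [pow_succ', pow_succ]; group

theorem comm_pow_right {G : Type} [Group G] {z q x : G} (hz : ∀ g, z * g = g * z)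
    (h : q * x = z * (x * q)) (j : ℕ) : q * x ^ j = z ^ j * (x ^ j * q) := by
  have hzj : ∀ (j : ℕ) (g : G), z ^ j * g = g * z ^ j := fun j g =>
    ((show Commute z g from hz g).pow_left j).eq
  induction j with
  | zero => simp
  | succ j ih =>
    calc q * x ^ (j + 1) = q * x ^ j * x := by rw [pow_succ, mul_assoc]
      _ = z ^ j * (x ^ j * q) * x := by rw [ih]
      _ = z ^ j * (x ^ j * (q * x)) := by group
      _ = z ^ j * (x ^ j * (z * (x * q))) := by rw [h]
      _ = z ^ j * (x ^ j * z * (x * q)) := by group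
      _ = z ^ j * (z * x ^ j * (x * q)) := by rw [hz]
      _ = z ^ (j + 1) * (x ^ (j + 1) * q) := by
        rw [pow_succ, pow_succ]; simp only [mul_assoc]

theorem exists_mem {G : Type} [Group G] [Finite G] {p : ℕ} (hp : p.Prime)
    (Pb : Sylow p (G ⧸ Subgroup.center G)) (Q : Subgroup (G ⧸ Subgroup.center G)) [Q.Normal]
    (hQ : IsPGroup p Q) (hQ1 : Q ≠ ⊥) (x : G)
    (hfix : ∀ g : G, (g : G ⧸ Subgroup.center G) ∈ Pb →
      Subgroup.centralizer {g * x * g⁻¹} = Subgroup.centralizer {x}) :
    ∃ t : G, (t : G ⧸ Subgroup.center G) ∈ Pb ∧ t ∉ Subgroup.center G ∧ t * x = x * t := by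
  by_contra hcon
  have hcon' : ∀ t : G, (t : G ⧸ Subgroup.center G) ∈ Pb → t * x = x * t →
      t ∈ Subgroup.center G := by
    intro t ht htx
    by_contra h
    exact hcon ⟨t, ht, h, htx⟩
  have memC : ∀ a y : G, y ∈ Subgroup.centralizer {a} ↔ a * y = y * a := by
    intro a y
    rw [Subgroup.mem_centralizer_singleton_iff]
    exact eq_comm
  have hQP : Q ≤ Pb := by
    have h1 : IsPGroup p ((Pb : Subgroup (G ⧸ Subgroup.center G)) ⊔ Q :
        Subgroup (G ⧸ Subgroup.center G)) := Pb.2.to_sup_of_normal_right hQ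
    rw [← Pb.is_maximal' h1 le_sup_left]
    exact le_sup_right
  obtain ⟨qb, hqb, hqb1⟩ := (Subgroup.bot_or_exists_ne_one Q).resolve_left hQ1
  obtain ⟨q, rfl⟩ := QuotientGroup.mk_surjective qb
  have hqc : q ∉ Subgroup.center G := fun h => hqb1 ((QuotientGroup.eq_one_iff q).2 h)
  -- conjugation by elements of Pb preserves the centralizer
  have hconj : ∀ g : G, (g : G ⧸ Subgroup.center G) ∈ Pb → ∀ y : G, x * y = y * x →
      x * (g * y * g⁻¹) = g * y * g⁻¹ * x := by
    intro g hg y hy
    rw [← memC, ← hfix g hg, memC]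
    calc g * x * g⁻¹ * (g * y * g⁻¹) = g * (x * y) * g⁻¹ := by group
      _ = g * (y * x) * g⁻¹ := by rw [hy]
      _ = _ := by group
  obtain ⟨z, hzdef⟩ : ∃ z, z = q * x * q⁻¹ * x⁻¹ := ⟨_, rfl⟩
  have hzc : z ∈ Subgroup.center G := by
    apply hcon'
    · have h1 : (z : G ⧸ Subgroup.center G) ∈ Q := by
        rw [hzdef]
        have h2 : ((q * x * q⁻¹ * x⁻¹ : G) : G ⧸ Subgroup.center G) =
            (q : G ⧸ Subgroup.center G) * ((x : G ⧸ Subgroup.center G) *
              (q : G ⧸ Subgroup.center G)⁻¹ * (x : G ⧸ Subgroup.center G)⁻¹) := by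
          simp [mul_assoc]
        rw [h2]
        exact Q.mul_mem hqb (Subgroup.Normal.conj_mem inferInstance _ (Q.inv_mem hqb) _)
      exact hQP h1
    · have h1 := hconj q (hQP hqb) x rfl
      have h3 : q * x * q⁻¹ * x⁻¹ * x = x * (q * x * q⁻¹) * x⁻¹ := by
        rw [h1]; group
      rw [hzdef, h3]; group
  have hz : ∀ g, z * g = g * z := fun g => (Subgroup.mem_center_iff.1 hzc g).symm
  have hqx : q * x = z * (x * q) := by rw [hzdef]; group
  have hz1 : z ≠ 1 := by
    intro h
    rw [h, one_mul] at hqx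
    exact hqc (hcon' q (hQP hqb) hqx)
  -- z has p-power order
  obtain ⟨k, hk⟩ := hQ ⟨(q : G ⧸ Subgroup.center G), hqb⟩
  have hqk : q ^ p ^ k ∈ Subgroup.center G := by
    rw [← QuotientGroup.eq_one_iff]
    have := congrArg Subtype.val hk
    simpa using this
  have hzk : z ^ p ^ k = 1 := by
    have h1 := comm_pow_left hz hqx (p ^ k)
    rw [← Subgroup.mem_center_iff.1 hqk x] at h1
    have h2 : z ^ p ^ k * (x * q ^ p ^ k) = 1 * (x * q ^ p ^ k) := by rw [← h1, one_mul]
    exact mul_right_cancel h2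
  obtain ⟨e, m, hpm, hord⟩ := Nat.exists_eq_pow_mul_and_not_dvd (n := orderOf x)
    (orderOf_pos x).ne' p hp.ne_one
  have hzm : z ^ m ≠ 1 := by
    intro h
    apply hz1
    have h1 := Nat.dvd_gcd (orderOf_dvd_of_pow_eq_one h) (orderOf_dvd_of_pow_eq_one hzk)
    have h2 : Nat.gcd m (p ^ k) = 1 :=
      Nat.Coprime.pow_right k ((Nat.Prime.coprime_iff_not_dvd hp).2 hpm).symm
    rw [h2, Nat.dvd_one] at h1
    exact orderOf_eq_one_iff.1 h1
  have ht : x ^ m ∉ Subgroup.center G := by
    intro h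
    apply hzm
    have h1 := comm_pow_right hz hqx m
    rw [Subgroup.mem_center_iff.1 h q] at h1
    have h2 : z ^ m * (x ^ m * q) = 1 * (x ^ m * q) := by rw [← h1, one_mul]
    exact mul_right_cancel h2
  -- the subgroup T
  let T : Subgroup (G ⧸ Subgroup.center G) :=
    { carrier := {s | ∃ a : G, (a : G ⧸ Subgroup.center G) = s ∧ (∃ j, s ^ p ^ j = 1) ∧
        ∀ y : G, x * y = y * x → a * y = y * a}
      mul_mem' := by
        rintro _ _ ⟨a, rfl, ⟨i, hi⟩, ha⟩ ⟨b, rfl, ⟨j, hj⟩, hb⟩
        have hab : a * b = b * a := ha b (hb x rfl).symm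
        refine ⟨a * b, rfl, ⟨i + j, ?_⟩, ?_⟩
        · have hc : Commute (a : G ⧸ Subgroup.center G) (b : G ⧸ Subgroup.center G) := by
            change (a : G ⧸ Subgroup.center G) * b = b * a
            rw [← QuotientGroup.mk_mul, hab, QuotientGroup.mk_mul]
          rw [hc.mul_pow, pow_add, pow_mul, hi, one_pow, one_mul, mul_comm, pow_mul, hj, one_pow]
        · intro y hy
          rw [mul_assoc, hb y hy, ← mul_assoc, ha y hy, mul_assoc]
      one_mem' := ⟨1, rfl, ⟨0, by simp⟩, fun y _ => by simp⟩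
      inv_mem' := by
        rintro _ ⟨a, rfl, ⟨i, hi⟩, ha⟩
        refine ⟨a⁻¹, rfl, ⟨i, by rw [inv_pow, hi, inv_one]⟩, fun y hy => ?_⟩
        exact ((show Commute a y from ha y hy).inv_left).eq }
  have hT : IsPGroup p T := by
    rintro ⟨s, a, rfl, ⟨j, hj⟩, ha⟩
    exact ⟨j, Subtype.ext hj⟩
  have hnorm1 : ∀ g ∈ (Pb : Subgroup (G ⧸ Subgroup.center G)), ∀ s ∈ T, g * s * g⁻¹ ∈ T := by
    intro gb hg s hs
    obtain ⟨g, rfl⟩ := QuotientGroup.mk_surjective gb
    obtain ⟨a, rfl, ⟨j, hj⟩, ha⟩ := hs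
    refine ⟨g * a * g⁻¹, rfl, ⟨j, ?_⟩, ?_⟩
    · rw [conj_pow, hj, mul_one, mul_inv_cancel]
    · intro y hy
      have hg' : ((g⁻¹ : G) : G ⧸ Subgroup.center G) ∈ Pb :=
        (Pb : Subgroup (G ⧸ Subgroup.center G)).inv_mem hg
      have h1 := ha _ (hconj g⁻¹ hg' y hy)
      rw [inv_inv] at h1
      calc g * a * g⁻¹ * y = g * (a * (g⁻¹ * y * g)) * g⁻¹ := by group
        _ = g * (g⁻¹ * y * g * a) * g⁻¹ := by rw [h1]
        _ = _ := by group
  have hnorm : (Pb : Subgroup (G ⧸ Subgroup.center G)) ≤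
      Subgroup.normalizer (T : Set (G ⧸ Subgroup.center G)) := by
    intro g hg
    rw [Subgroup.mem_normalizer_iff]
    intro s
    constructor
    · exact hnorm1 g hg s
    · intro h
      have := hnorm1 g⁻¹ ((Pb : Subgroup (G ⧸ Subgroup.center G)).inv_mem hg) _ h
      have h2 : g⁻¹ * (g * s * g⁻¹) * g⁻¹⁻¹ = s := by group
      rwa [h2] at this
  have hTP : T ≤ Pb := by
    have h1 := Pb.2.to_sup_of_normal_right' hT hnorm
    rw [← Pb.is_maximal' h1 le_sup_left]
    exact le_sup_right
  apply ht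
  refine hcon' _ (hTP ⟨x ^ m, rfl, ⟨e, ?_⟩, ?_⟩) ?_
  · rw [← QuotientGroup.mk_pow, ← pow_mul, mul_comm, ← hord, pow_orderOf_eq_one]; rfl
  · intro y hy
    exact ((show Commute x y from hy).pow_left m).eq
  · exact ((Commute.refl x).pow_left m).eq

theorem sum_invariant {P α : Type} [Group P] [MulAction P α] [Fintype α] {p : ℕ} (hp : p.Prime)
    (hP : IsPGroup p P) (φ : α → ZMod p) (hinv : ∀ (g : P) (a : α), φ (g • a) = φ a)
    (hfix : ∀ a ∈ MulAction.fixedPoints P α, φ a = 0) : ∑ a, φ a = 0 := by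
  classical
  have := Fact.mk hp
  have h := Finset.sum_comp (s := (Finset.univ : Finset α)) (fun c : ZMod p => c) φ
  rw [h]
  refine Finset.sum_eq_zero fun c _ => ?_
  by_cases hc : c = 0
  · rw [hc, smul_zero]
  · let S : SubMulAction P α :=
      { carrier := {a | φ a = c}
        smul_mem' := fun g a ha => by
          change φ (g • a) = c
          rw [hinv]; exact ha }
    have h1 := hP.card_modEq_card_fixedPoints S
    have h2 : IsEmpty (MulAction.fixedPoints P S) := by
      refine ⟨fun ⟨⟨a, ha⟩, hfa⟩ => hc ?_⟩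
      rw [← show φ a = c from ha]
      apply hfix
      intro g
      have := congrArg Subtype.val (hfa g)
      exact this
    have h5 : Nat.card (MulAction.fixedPoints P S) = 0 := Nat.card_of_isEmpty
    rw [h5] at h1
    have h3 : (Nat.card S : ZMod p) = 0 := by
      have := (ZMod.natCast_eq_natCast_iff _ _ p).2 h1
      simpa using this
    have h4 : Nat.card S = #{a | φ a = c} := by
      have e : S ≃ {a // φ a = c} := Equiv.refl _
      rw [Nat.card_congr e, Nat.card_eq_fintype_card, Fintype.card_subtype]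
    rw [nsmul_eq_mul, ← h4, h3, zero_mul]

variable {G : Type} [Group G]

/-- The centralizers of the noncentral elements. -/
abbrev Cent (G : Type) [Group G] : Type :=
  {C : Subgroup G // ∃ x, x ∉ Subgroup.center G ∧ C = Subgroup.centralizer {x}}

/-- An element with the given centralizer. -/
def rep (C : Cent G) : G := C.2.choose

theorem rep_notMem (C : Cent G) : rep C ∉ Subgroup.center G := C.2.choose_spec.1

theorem rep_eq (C : Cent G) : C.1 = Subgroup.centralizer {rep C} := C.2.choose_spec.2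

/-- The centralizer of a noncentral element. -/
def mkC (x : G) (hx : x ∉ Subgroup.center G) : Cent G := ⟨Subgroup.centralizer {x}, x, hx, rfl⟩

theorem mem_cen (a y : G) : y ∈ Subgroup.centralizer {a} ↔ a * y = y * a := by
  rw [Subgroup.mem_centralizer_singleton_iff]
  exact eq_comm

theorem nc_eq_zero (g h : G) : nc g h = 0 ↔ g * h = h * g := by
  unfold nc
  by_cases h1 : g * h = h * g
  · rw [if_pos h1]; exact ⟨fun _ => h1, fun _ => rfl⟩
  · rw [if_neg h1]; exact ⟨fun h => absurd h one_ne_zero, fun h => absurd h h1⟩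

theorem nc_congr {a b c d : G} (h : a * b = b * a ↔ c * d = d * c) : nc a b = nc c d := by
  unfold nc
  by_cases h1 : a * b = b * a
  · rw [if_pos h1, if_pos (h.1 h1)]
  · rw [if_neg h1, if_neg fun h2 => h1 (h.2 h2)]

theorem nc_of_cen_left {a b : G} (h : Subgroup.centralizer {a} = Subgroup.centralizer {b})
    (y : G) : nc a y = nc b y := by
  apply nc_congr
  rw [← mem_cen, ← mem_cen, h]

theorem nc_of_cen_right {a b : G} (h : Subgroup.centralizer {a} = Subgroup.centralizer {b})
    (y : G) : nc y a = nc y b := by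
  rw [nc_symm y a, nc_symm y b]
  exact nc_of_cen_left h y

theorem nc_center {a : G} (ha : a ∈ Subgroup.center G) (y : G) : nc a y = 0 :=
  (nc_eq_zero a y).2 (Subgroup.mem_center_iff.1 ha y).symm

theorem conj_center {g x : G} (hx : x ∉ Subgroup.center G) : g * x * g⁻¹ ∉ Subgroup.center G := by
  intro h
  apply hx
  have h1 := Subgroup.Normal.conj_mem (inferInstance : (Subgroup.center G).Normal) _ h g⁻¹
  have h2 : g⁻¹ * (g * x * g⁻¹) * g⁻¹⁻¹ = x := by group
  rwa [h2] at h1

theorem conj_cen {x y : G} (g : G) (h : Subgroup.centralizer {x} = Subgroup.centralizer {y}) :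
    Subgroup.centralizer {g * x * g⁻¹} = Subgroup.centralizer {g * y * g⁻¹} := by
  have key : ∀ a w : G, w ∈ Subgroup.centralizer {g * a * g⁻¹} ↔
      g⁻¹ * w * g ∈ Subgroup.centralizer {a} := by
    intro a w
    rw [mem_cen, mem_cen]
    constructor
    · intro h
      calc a * (g⁻¹ * w * g) = g⁻¹ * (g * a * g⁻¹ * w) * g := by group
        _ = g⁻¹ * (w * (g * a * g⁻¹)) * g := by rw [h]
        _ = _ := by group
    · intro h
      calc g * a * g⁻¹ * w = g * (a * (g⁻¹ * w * g)) * g⁻¹ := by group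
        _ = g * (g⁻¹ * w * g * a) * g⁻¹ := by rw [h]
        _ = _ := by group
  ext w
  rw [key, key, h]

instance instActCent : MulAction G (Cent G) where
  smul g C := ⟨Subgroup.centralizer {g * rep C * g⁻¹}, g * rep C * g⁻¹,
    conj_center (rep_notMem C), rfl⟩
  one_smul C := by
    apply Subtype.ext
    change Subgroup.centralizer {1 * rep C * 1⁻¹} = C.1
    rw [rep_eq C]; simp
  mul_smul g h C := by
    apply Subtype.ext
    change Subgroup.centralizer {g * h * rep C * (g * h)⁻¹} =
      Subgroup.centralizer {g * rep (⟨Subgroup.centralizer {h * rep C * h⁻¹}, _⟩ : Cent G) * g⁻¹}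
    have h1 := rep_eq (⟨Subgroup.centralizer {h * rep C * h⁻¹}, h * rep C * h⁻¹,
      conj_center (rep_notMem C), rfl⟩ : Cent G)
    have h2 := conj_cen g h1
    rw [← h2]
    congr 2
    group

theorem smul_val (g : G) (C : Cent G) :
    (g • C).1 = Subgroup.centralizer {g * rep C * g⁻¹} := rfl

theorem smul_mkC (g x : G) (hx : x ∉ Subgroup.center G) :
    g • mkC x hx = mkC (g * x * g⁻¹) (conj_center hx) := by
  apply Subtype.ext
  rw [smul_val]
  exact conj_cen g (rep_eq (mkC x hx)).symm

theorem cen_mul_center (a : G) {z : G} (hz : z ∈ Subgroup.center G) :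
    Subgroup.centralizer {a * z} = Subgroup.centralizer {a} := by
  ext w
  rw [mem_cen, mem_cen]
  have h1 : z * w = w * z := (Subgroup.mem_center_iff.1 hz w).symm
  constructor
  · intro h
    have h2 : a * w * z = w * a * z := by
      calc a * w * z = a * z * w := by rw [mul_assoc, ← h1, ← mul_assoc]
        _ = w * (a * z) := h
        _ = _ := by rw [mul_assoc]
    exact mul_right_cancel h2
  · intro h
    calc a * z * w = a * w * z := by rw [mul_assoc, h1, ← mul_assoc]
      _ = w * (a * z) := by rw [h, mul_assoc]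

theorem cen_out (a : G) :
    Subgroup.centralizer {((a : G ⧸ Subgroup.center G)).out} = Subgroup.centralizer {a} := by
  obtain ⟨z, hz⟩ := QuotientGroup.mk_out_eq_mul (Subgroup.center G) a
  rw [hz]
  exact cen_mul_center a z.2

theorem nc_conj (g x y : G) : nc (g * x * g⁻¹) (g * y * g⁻¹) = nc x y := by
  apply nc_congr
  constructor
  · intro h
    calc x * y = g⁻¹ * (g * x * g⁻¹ * (g * y * g⁻¹)) * g := by group
      _ = g⁻¹ * (g * y * g⁻¹ * (g * x * g⁻¹)) * g := by rw [h]
      _ = _ := by group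
  · intro h
    calc g * x * g⁻¹ * (g * y * g⁻¹) = g * (x * y) * g⁻¹ := by group
      _ = g * (y * x) * g⁻¹ := by rw [h]
      _ = _ := by group

theorem nc_smul (g : G) (C D : Cent G) : nc (rep (g • C)) (rep (g • D)) = nc (rep C) (rep D) := by
  have h1 : ∀ E : Cent G, Subgroup.centralizer {rep (g • E)} =
      Subgroup.centralizer {g * rep E * g⁻¹} := fun E => (rep_eq (g • E)).symm
  rw [nc_of_cen_left (h1 C), nc_of_cen_right (h1 D), nc_conj]

theorem cen_ne_of_center (C : Cent G) {a : G} (ha : a ∈ Subgroup.center G) :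
    Subgroup.centralizer {a} ≠ C.1 := by
  intro h
  apply rep_notMem C
  rw [rep_eq C] at h
  rw [Subgroup.mem_center_iff]
  intro g
  have h1 : g ∈ Subgroup.centralizer {a} := by
    rw [mem_cen]; exact (Subgroup.mem_center_iff.1 ha g).symm
  rw [h, mem_cen] at h1
  exact h1.symm

theorem brauer_gen [Fintype G] {p : ℕ} (hp : p.Prime) (P : Sylow p G)
    (hr : rankQ (M G) = Nat.card (Cent G)) (hdvd : p ∣ (Subgroup.center G).index)
    (hc : ∀ x ∉ Subgroup.center G,
      (∀ g ∈ P, Subgroup.centralizer {g * x * g⁻¹} = Subgroup.centralizer {x}) →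
      ∃ t ∈ P, t ∉ Subgroup.center G ∧ t * x = x * t) :
    p ∈ Ccomm G := by
  classical
  by_contra hpc
  have := Fact.mk hp
  have hle : rankQ (M G) ≤ rankMod p (M G) := by
    by_contra h
    exact hpc ⟨hp, not_le.1 h⟩
  let _ : Fintype (Cent G) := Fintype.ofFinite _
  -- independence of the rows
  let b : Cent G → G → ZMod p := fun C g => ((nc (rep C) g : ℤ) : ZMod p)
  have hspan : Submodule.span (ZMod p)
      {w : G → ZMod p | ∃ v ∈ M G, w = fun g => (v g : ZMod p)} ≤
      Submodule.span (ZMod p) (Set.range b) := by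
    rw [Submodule.span_le]
    rintro _ ⟨v, hv, rfl⟩
    obtain ⟨x, rfl⟩ := exists_of_mem hv
    have h1 : (fun h => ((∑ g, x g * nc g h : ℤ) : ZMod p)) =
        ∑ g, ((x g : ℤ) : ZMod p) • (fun h => ((nc g h : ℤ) : ZMod p)) := by
      funext h
      simp [Finset.sum_apply]
    change (fun h => ((∑ g, x g * nc g h : ℤ) : ZMod p)) ∈ _
    rw [h1]
    refine Submodule.sum_mem _ fun g _ => Submodule.smul_mem _ _ ?_
    by_cases hg : g ∈ Subgroup.center G
    · have : (fun h => ((nc g h : ℤ) : ZMod p)) = 0 := by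
        funext h; rw [nc_center hg h]; simp
      rw [this]; exact Submodule.zero_mem _
    · refine Submodule.subset_span ⟨mkC g hg, ?_⟩
      funext h
      change ((nc (rep (mkC g hg)) h : ℤ) : ZMod p) = _
      rw [nc_of_cen_left (rep_eq (mkC g hg)).symm h]
  have hb : LinearIndependent (ZMod p) b := by
    rw [linearIndependent_iff_card_le_finrank_span, ← Nat.card_eq_fintype_card, ← hr]
    exact hle.trans (Submodule.finrank_mono hspan)
  have hinj : ∀ f : Cent G → ZMod p,
      (∀ D, ∑ C, f C * ((nc (rep C) (rep D) : ℤ) : ZMod p) = 0) → f = 0 := by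
    intro f hf
    funext C
    refine Fintype.linearIndependent_iff.1 hb f ?_ C
    funext y
    rw [Finset.sum_apply, Pi.zero_apply]
    by_cases hy : y ∈ Subgroup.center G
    · refine Finset.sum_eq_zero fun C _ => ?_
      change f C * ((nc (rep C) y : ℤ) : ZMod p) = 0
      rw [nc_symm, nc_center hy]; simp
    · rw [← hf (mkC y hy)]
      refine Finset.sum_congr rfl fun C _ => ?_
      change f C * ((nc (rep C) y : ℤ) : ZMod p) = _
      rw [nc_of_cen_right (rep_eq (mkC y hy)).symm]
  -- Sylow subgroups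
  let Pb : Sylow p (G ⧸ Subgroup.center G) :=
    P.mapSurjective (f := QuotientGroup.mk' (Subgroup.center G)) (QuotientGroup.mk'_surjective _)
  let PB : Subgroup (G ⧸ Subgroup.center G) := Pb
  have hPb : ∀ s, s ∈ PB ↔ ∃ g ∈ P, (g : G ⧸ Subgroup.center G) = s := fun s => Iff.rfl
  have hPBp : IsPGroup p PB := Pb.2
  let Φ : (Cent G → ZMod p) → Cent G → ZMod p :=
    fun f D => ∑ C, f C * ((nc (rep C) (rep D) : ℤ) : ZMod p)
  have hΦinv : ∀ f : Cent G → ZMod p, (∀ (g : P) (C : Cent G), f (g • C) = f C) →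
      ∀ (g : P) (D : Cent G), Φ f (g • D) = Φ f D := by
    intro f hf g D
    change ∑ C, f C * ((nc (rep C) (rep (g • D)) : ℤ) : ZMod p) =
      ∑ C, f C * ((nc (rep C) (rep D) : ℤ) : ZMod p)
    rw [← Equiv.sum_comp (MulAction.toPerm g)]
    refine Finset.sum_congr rfl fun C _ => ?_
    rw [MulAction.toPerm_apply, hf g C]
    congr 2
    exact nc_smul (g : G) C D
  have hΦfix : ∀ f : Cent G → ZMod p, (∀ (g : P) (C : Cent G), f (g • C) = f C) →
      (∀ C ∈ MulAction.fixedPoints P (Cent G), f C = 0) →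
      ∀ D ∈ MulAction.fixedPoints P (Cent G), Φ f D = 0 := by
    intro f hf hf0 D hD
    refine sum_invariant hp P.2 _ ?_ ?_
    · intro g C
      rw [hf g C]
      congr 2
      have h1 := nc_smul (g : G) C D
      have h2 : (g : G) • D = D := hD g
      rw [h2] at h1
      exact h1
    · intro C hC
      rw [hf0 C hC, zero_mul]
  let W := {f : Cent G → ZMod p // (∀ (g : P) (C : Cent G), f (g • C) = f C) ∧
    ∀ C ∈ MulAction.fixedPoints P (Cent G), f C = 0}
  let Ψ : W → W := fun f => ⟨Φ f.1, hΦinv f.1 f.2.1, hΦfix f.1 f.2.1 f.2.2⟩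
  have hΦinj : ∀ f f' : Cent G → ZMod p, Φ f = Φ f' → f = f' := by
    intro f f' h
    have : f - f' = 0 := by
      apply hinj
      intro D
      have h1 := congrFun h D
      change ∑ C, f C * ((nc (rep C) (rep D) : ℤ) : ZMod p) =
        ∑ C, f' C * ((nc (rep C) (rep D) : ℤ) : ZMod p) at h1
      simp only [Pi.sub_apply, sub_mul, Finset.sum_sub_distrib]
      rw [h1, sub_self]
    exact sub_eq_zero.1 this
  have hΨ : Function.Surjective Ψ := by
    apply Finite.surjective_of_injective
    intro f f' h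
    exact Subtype.ext (hΦinj _ _ (congrArg Subtype.val h))
  -- the counting function
  let h : Cent G → ZMod p := fun C =>
    ∑ s : PB, if Subgroup.centralizer {(s : G ⧸ Subgroup.center G).out} = C.1 then 1 else 0
  have hhinv : ∀ (g : P) (C : Cent G), h (g • C) = h C := by
    intro g C
    have hg : ((g : G) : G ⧸ Subgroup.center G) ∈ PB := (hPb _).2 ⟨g, g.2, rfl⟩
    let gb : PB := ⟨((g : G) : G ⧸ Subgroup.center G), hg⟩
    change (∑ s : PB, if Subgroup.centralizer {(s : G ⧸ Subgroup.center G).out} = (g • C).1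
      then (1 : ZMod p) else 0) = _
    rw [← Equiv.sum_comp (MulAut.conj gb).toEquiv]
    refine Finset.sum_congr rfl fun s _ => ?_
    obtain ⟨a, ha⟩ := QuotientGroup.mk_surjective (s : G ⧸ Subgroup.center G)
    have h1 : ((MulAut.conj gb).toEquiv s : G ⧸ Subgroup.center G) =
        (((g : G) * a * (g : G)⁻¹ : G) : G ⧸ Subgroup.center G) := by
      change ((g : G) : G ⧸ Subgroup.center G) * (s : G ⧸ Subgroup.center G) *
        ((g : G) : G ⧸ Subgroup.center G)⁻¹ = _
      rw [← ha]; rfl
    rw [h1, cen_out, ← ha, cen_out]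
    have h2 : (g • C).1 = Subgroup.centralizer {(g : G) * rep C * (g : G)⁻¹} := rfl
    have h3 : Subgroup.centralizer {(g : G) * a * (g : G)⁻¹} = (g • C).1 ↔
        Subgroup.centralizer {a} = C.1 := by
      rw [h2, rep_eq C]
      constructor
      · intro h4
        have h5 := conj_cen ((g : G)⁻¹) h4
        have h6 : ∀ y : G, (g : G)⁻¹ * ((g : G) * y * (g : G)⁻¹) * (g : G)⁻¹⁻¹ = y := by
          intro y; group
        rwa [h6, h6] at h5
      · exact conj_cen (g : G)
    by_cases h4 : Subgroup.centralizer {a} = C.1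
    · rw [if_pos (h3.2 h4), if_pos h4]
    · rw [if_neg (fun h5 => h4 (h3.1 h5)), if_neg h4]
  -- double counting
  have hsum : ∀ F : Cent G → ZMod p, ∀ F' : G → ZMod p,
      (∀ a ∈ Subgroup.center G, F' a = 0) →
      (∀ a, ∀ C : Cent G, Subgroup.centralizer {a} = C.1 → F C = F' a) →
      ∑ C, h C * F C = ∑ s : PB, F' (s : G ⧸ Subgroup.center G).out := by
    intro F F' hF1 hF2
    change ∑ C, (∑ s : PB, if Subgroup.centralizer {(s : G ⧸ Subgroup.center G).out} = C.1
      then (1 : ZMod p) else 0) * F C = _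
    simp only [Finset.sum_mul]
    rw [Finset.sum_comm]
    refine Finset.sum_congr rfl fun s _ => ?_
    by_cases hs : (s : G ⧸ Subgroup.center G).out ∈ Subgroup.center G
    · rw [hF1 _ hs]
      refine Finset.sum_eq_zero fun C _ => ?_
      rw [if_neg (cen_ne_of_center C hs), zero_mul]
    · rw [Finset.sum_eq_single (mkC _ hs)]
      · rw [if_pos (show Subgroup.centralizer {(s : G ⧸ Subgroup.center G).out} =
          (mkC (s : G ⧸ Subgroup.center G).out hs).1 from rfl), one_mul]
        exact hF2 _ _ rfl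
      · intro C _ hC
        rw [if_neg, zero_mul]
        intro h1
        exact hC (Subtype.ext h1.symm)
      · intro h1; exact absurd (Finset.mem_univ _) h1
  have hPbdvd : p ∣ Nat.card PB := by
    have : Finite (G ⧸ Subgroup.center G) := inferInstance
    exact Pb.dvd_card_of_dvd_card hdvd
  have hPb0 : (Fintype.card PB : ZMod p) = 0 := by
    rw [← Nat.card_eq_fintype_card]
    exact (ZMod.natCast_eq_zero_iff _ _).2 hPbdvd
  have hw : ∀ D ∈ MulAction.fixedPoints P (Cent G), Φ h D = 0 := by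
    intro D hD
    have hfix : ∀ g ∈ P, Subgroup.centralizer {g * rep D * g⁻¹} =
        Subgroup.centralizer {rep D} := by
      intro g' hg'
      have h1 : (⟨g', hg'⟩ : P) • D = D := hD _
      have h3 := congrArg Subtype.val h1
      rw [← rep_eq D]
      exact h3
    obtain ⟨t, htP, htc, htx⟩ := hc (rep D) (rep_notMem D) hfix
    have ht : (t : G ⧸ Subgroup.center G) ∈ PB := (hPb _).2 ⟨t, htP, rfl⟩
    have h1 : Φ h D = ∑ s : PB, ((nc (s : G ⧸ Subgroup.center G).out (rep D) : ℤ) : ZMod p) := by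
      refine hsum (fun C => ((nc (rep C) (rep D) : ℤ) : ZMod p))
        (fun a => ((nc a (rep D) : ℤ) : ZMod p)) ?_ ?_
      · intro a ha
        rw [nc_center ha]; simp
      · intro a C hC
        rw [rep_eq C] at hC
        rw [nc_of_cen_left hC.symm]
    rw [h1]
    let S : Subgroup PB :=
      { carrier := {s | (s : G ⧸ Subgroup.center G).out ∈ Subgroup.centralizer {rep D}}
        mul_mem' := by
          intro s s' hs hs'
          have h2 : (((s * s' : PB) : G ⧸ Subgroup.center G)) =
              (((s : G ⧸ Subgroup.center G).out * (s' : G ⧸ Subgroup.center G).out : G) :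
                G ⧸ Subgroup.center G) := by
            rw [QuotientGroup.mk_mul, QuotientGroup.out_eq', QuotientGroup.out_eq']; rfl
          change ((s * s' : PB) : G ⧸ Subgroup.center G).out ∈ Subgroup.centralizer {rep D}
          rw [h2]
          obtain ⟨z, hz⟩ := QuotientGroup.mk_out_eq_mul (Subgroup.center G)
            ((s : G ⧸ Subgroup.center G).out * (s' : G ⧸ Subgroup.center G).out)
          rw [hz]
          refine Subgroup.mul_mem _ (Subgroup.mul_mem _ hs hs') ?_
          exact Subgroup.center_le_centralizer _ z.2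
        one_mem' := by
          change ((1 : PB) : G ⧸ Subgroup.center G).out ∈ Subgroup.centralizer {rep D}
          obtain ⟨z, hz⟩ := QuotientGroup.mk_out_eq_mul (Subgroup.center G) (1 : G)
          have h2 : ((1 : PB) : G ⧸ Subgroup.center G) = ((1 : G) : G ⧸ Subgroup.center G) := rfl
          rw [h2, hz, one_mul]
          exact Subgroup.center_le_centralizer _ z.2
        inv_mem' := by
          intro s hs
          have h2 : (((s⁻¹ : PB) : G ⧸ Subgroup.center G)) =
              (((s : G ⧸ Subgroup.center G).out⁻¹ : G) : G ⧸ Subgroup.center G) := by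
            rw [QuotientGroup.mk_inv, QuotientGroup.out_eq']; rfl
          change ((s⁻¹ : PB) : G ⧸ Subgroup.center G).out ∈ Subgroup.centralizer {rep D}
          rw [h2]
          obtain ⟨z, hz⟩ := QuotientGroup.mk_out_eq_mul (Subgroup.center G)
            ((s : G ⧸ Subgroup.center G).out⁻¹)
          rw [hz]
          refine Subgroup.mul_mem _ (Subgroup.inv_mem _ hs) ?_
          exact Subgroup.center_le_centralizer _ z.2 }
    have hSdvd : p ∣ Nat.card S := by
      rcases (hPBp.to_subgroup S).card_eq_or_dvd with h2 | h2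
      · exfalso
        have h3 : Subsingleton S := (Nat.card_eq_one_iff_unique.1 h2).1
        have hmem : (⟨(t : G ⧸ Subgroup.center G), ht⟩ : PB) ∈ S := by
          change ((t : G ⧸ Subgroup.center G)).out ∈ Subgroup.centralizer {rep D}
          obtain ⟨z, hz⟩ := QuotientGroup.mk_out_eq_mul (Subgroup.center G) t
          rw [hz]
          refine Subgroup.mul_mem _ ?_ (Subgroup.center_le_centralizer _ z.2)
          rw [mem_cen]; exact htx.symm
        have h4 := congrArg (fun s : S => ((s : PB) : G ⧸ Subgroup.center G))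
          (Subsingleton.elim (⟨_, hmem⟩ : S) 1)
        exact htc ((QuotientGroup.eq_one_iff t).1 h4)
      · exact h2
    have h2 : ∀ s : PB, ((nc (s : G ⧸ Subgroup.center G).out (rep D) : ℤ) : ZMod p) =
        1 - if s ∈ S then 1 else 0 := by
      intro s
      have h3 : s ∈ S ↔ (s : G ⧸ Subgroup.center G).out * rep D =
          rep D * (s : G ⧸ Subgroup.center G).out := by
        change (s : G ⧸ Subgroup.center G).out ∈ Subgroup.centralizer {rep D} ↔ _
        rw [mem_cen]; exact eq_comm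
      by_cases h4 : s ∈ S
      · rw [if_pos h4, (nc_eq_zero _ _).2 (h3.1 h4)]; simp
      · rw [if_neg h4]
        unfold nc
        rw [if_neg fun h5 => h4 (h3.2 h5)]; simp
    rw [Finset.sum_congr rfl fun s _ => h2 s, Finset.sum_sub_distrib, Finset.sum_boole]
    rw [Finset.sum_const, Finset.card_univ, nsmul_eq_mul, mul_one, hPb0, zero_sub, neg_eq_zero]
    have h5 : #{s : PB | s ∈ S} = Nat.card S := by
      rw [Nat.card_eq_fintype_card, Fintype.card_subtype]
    rw [h5]
    exact (ZMod.natCast_eq_zero_iff _ _).2 hSdvd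
  obtain ⟨f, hf⟩ := hΨ ⟨Φ h, hΦinv h hhinv, hw⟩
  have hfh : f.1 = h := hΦinj _ _ (congrArg Subtype.val hf)
  have h0 : ∑ C, h C = 0 := by
    rw [← hfh]
    exact sum_invariant hp P.2 f.1 f.2.1 f.2.2
  have h1 : ∑ C, h C = ∑ s : PB, if (s : G ⧸ Subgroup.center G).out ∈ Subgroup.center G
      then (0 : ZMod p) else 1 := by
    have h2 := hsum (fun _ => 1) (fun a => if a ∈ Subgroup.center G then 0 else 1)
      (fun a ha => if_pos ha) (by
        intro a C hC
        rw [if_neg]
        intro ha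
        exact cen_ne_of_center C ha hC)
    simp only [mul_one] at h2
    exact h2
  have h2 : ∀ s : PB, (if (s : G ⧸ Subgroup.center G).out ∈ Subgroup.center G
      then (0 : ZMod p) else 1) = 1 - if s = 1 then 1 else 0 := by
    intro s
    have h3 : (s : G ⧸ Subgroup.center G).out ∈ Subgroup.center G ↔ s = 1 := by
      rw [← QuotientGroup.eq_one_iff, QuotientGroup.out_eq']
      exact ⟨fun h => Subtype.ext h, fun h => congrArg Subtype.val h⟩
    by_cases h4 : s = 1
    · rw [if_pos (h3.2 h4), if_pos h4]; simp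
    · rw [if_neg (fun h5 => h4 (h3.1 h5)), if_neg h4]; simp
  rw [h0, Finset.sum_congr rfl fun s _ => h2 s, Finset.sum_sub_distrib, Finset.sum_const,
    Finset.card_univ, nsmul_eq_mul, mul_one, hPb0] at h1
  simp at h1

theorem brauer [Fintype G] {p : ℕ} (hp : p.Prime) (hr : rankQ (M G) = Nat.card (Cent G))
    (Q : Subgroup (G ⧸ Subgroup.center G)) [Q.Normal] (hQ : IsPGroup p Q) (hQ1 : Q ≠ ⊥) :
    p ∈ Ccomm G := by
  have := Fact.mk hp
  obtain ⟨P⟩ : Nonempty (Sylow p G) := inferInstance
  let Pb : Sylow p (G ⧸ Subgroup.center G) :=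
    P.mapSurjective (f := QuotientGroup.mk' (Subgroup.center G)) (QuotientGroup.mk'_surjective _)
  have hPb : ∀ s, s ∈ Pb ↔ ∃ g ∈ P, (g : G ⧸ Subgroup.center G) = s := fun s => Iff.rfl
  have key : ∀ g g' : G, (g' : G ⧸ Subgroup.center G) = g → ∃ z ∈ Subgroup.center G,
      g = g' * z := by
    intro g g' he
    exact ⟨g'⁻¹ * g, QuotientGroup.eq.1 he, by group⟩
  refine brauer_gen hp P hr ?_ ?_
  · have h1 : p ∣ Nat.card Q := by
      rcases hQ.card_eq_or_dvd with h1 | h1
      · exact absurd ((Subgroup.card_eq_one).1 h1) hQ1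
      · exact h1
    exact h1.trans (Subgroup.card_subgroup_dvd_card Q)
  · intro x hx hfix
    have hfix' : ∀ g : G, (g : G ⧸ Subgroup.center G) ∈ Pb →
        Subgroup.centralizer {g * x * g⁻¹} = Subgroup.centralizer {x} := by
      intro g hg
      obtain ⟨g', hg', he⟩ := (hPb _).1 hg
      obtain ⟨z, hz, rfl⟩ := key g g' he
      rw [← hfix g' hg']
      have h7 : z * x = x * z := (Subgroup.mem_center_iff.1 hz x).symm
      have h5 : g' * z * x * (g' * z)⁻¹ = g' * x * g'⁻¹ := by
        calc g' * z * x * (g' * z)⁻¹ = g' * (z * x) * (g' * z)⁻¹ := by group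
          _ = g' * (x * z) * (g' * z)⁻¹ := by rw [h7]
          _ = _ := by group
      rw [h5]
    obtain ⟨t, ht, htc, htx⟩ := exists_mem hp Pb Q hQ hQ1 x hfix'
    obtain ⟨t', ht', he⟩ := (hPb _).1 ht
    obtain ⟨z, hz, rfl⟩ := key t t' he
    refine ⟨t', ht', fun h => htc (Subgroup.mul_mem _ h hz), ?_⟩
    have h7 : z * x = x * z := (Subgroup.mem_center_iff.1 hz x).symm
    have h8 : t' * x * z = x * t' * z := by
      calc t' * x * z = t' * (x * z) := by group
        _ = t' * (z * x) := by rw [h7]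
        _ = t' * z * x := by group
        _ = x * (t' * z) := htx
        _ = _ := by group
    exact mul_right_cancel h8

end Brauer

section PGroup

variable {G : Type} [Group G] [Fintype G]

theorem pgroup_data {p : ℕ} (hp : p.Prime) (hG : IsPGroup p G) : ∃ n : ℕ, Nat.card G = p ^ n ∧
    ∀ x : G, ∃ i ≤ n, Nat.card {g : G // Commute g x} = p ^ i ∧ classSize x = p ^ (n - i) := by
  have := Fact.mk hp
  obtain ⟨n, hn⟩ := IsPGroup.iff_card.1 hG
  refine ⟨n, hn, fun x => ?_⟩
  have h1 := classSize_mul x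
  rw [hn] at h1
  obtain ⟨i, hi, h2⟩ := (Nat.dvd_prime_pow hp).1 (Dvd.intro_left _ h1)
  refine ⟨i, hi, h2, ?_⟩
  rw [h2] at h1
  have h3 : p ^ n = p ^ (n - i) * p ^ i := by rw [← pow_add, Nat.sub_add_cancel hi]
  rw [h3] at h1
  exact Nat.eq_of_mul_eq_mul_right (pow_pos hp.pos i) h1

theorem pgroup_count {p : ℕ} (hp : p.Prime) (hG : IsPGroup p G) (hna : ∃ x y : G, x * y ≠ y * x)
    (x₀ : G) (hB : ∀ x : G, classSize x ≤ classSize x₀) (hpc : p ∉ Ccomm G) :
    Nat.card G * (if p = 2 then 2 else 1) ∣ classSize x₀ ^ 2 * Nat.card (ConjClasses G) := by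
  obtain ⟨n, hn, hdata⟩ := pgroup_data hp hG
  obtain ⟨c, hcn, hc1, hc2⟩ := hdata x₀
  have hle : ∀ x : G, ∃ i, c ≤ i ∧ i ≤ n ∧ Nat.card {g : G // Commute g x} = p ^ i := by
    intro x
    obtain ⟨i, hin, h1, h2⟩ := hdata x
    have h3 := hB x
    rw [h2, hc2] at h3
    have h4 := (Nat.pow_le_pow_iff_right hp.one_lt).1 h3
    exact ⟨i, by omega, hin, h1⟩
  have hcn' : c < n := by
    obtain ⟨x, y, hxy⟩ := hna
    obtain ⟨i, hi1, hi2, h1⟩ := hle y
    by_contra h
    have h2 : i = n := by omega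
    rw [h2, ← hn] at h1
    have h3 : Function.Surjective (Subtype.val : {g : G // Commute g y} → G) := by
      have h4 : Function.Bijective (Subtype.val : {g : G // Commute g y} → G) :=
        (Nat.bijective_iff_injective_and_card _).2 ⟨Subtype.val_injective, h1⟩
      exact h4.2
    obtain ⟨⟨g, hg⟩, rfl⟩ := h3 x
    exact hxy hg
  have hgen := general hp c (by
    intro x
    obtain ⟨i, hi1, hi2, h1⟩ := hle x
    rw [h1, hn]
    push_cast
    exact dvd_sub (pow_dvd_pow _ hcn) (pow_dvd_pow _ hi1)) hpc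
  rw [hn, hc2]
  have hpI : (p : ℤ) ≠ 0 := by exact_mod_cast hp.ne_zero
  set k := Nat.card (ConjClasses G) with hk
  rw [hn] at hgen
  push_cast at hgen
  by_cases h2 : p = 2
  · subst h2
    rw [if_pos rfl]
    have h3 := hgen.2 rfl
    push_cast at h3
    have h4 : (2 : ℤ) ^ (2 * c + 1) ∣ (2 : ℤ) ^ n * k := by
      have h5 : (2 : ℤ) ^ (2 * c + 1) ∣ ((2 : ℤ) ^ n) ^ 2 := by
        rw [← pow_mul]; exact pow_dvd_pow _ (by omega)
      have h6 := dvd_sub h5 h3
      rwa [sub_sub_cancel] at h6
    have h7 : (2 : ℕ) ^ (2 * c + 1) ∣ 2 ^ n * k := by exact_mod_cast h4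
    have h8 : 2 ^ n * (2 ^ n * 2) ∣ 2 ^ n * ((2 ^ (n - c)) ^ 2 * k) := by
      have h9 := mul_dvd_mul_left (2 ^ (2 * (n - c))) h7
      rw [← pow_add] at h9
      have h10 : 2 * (n - c) + (2 * c + 1) = n + (n + 1) := by omega
      rw [h10] at h9
      have h11 : 2 ^ n * (2 ^ n * 2) = 2 ^ (n + (n + 1)) := by ring
      have h12 : 2 ^ n * ((2 ^ (n - c)) ^ 2 * k) = 2 ^ (2 * (n - c)) * (2 ^ n * k) := by
        rw [← pow_mul, mul_comm (n - c) 2]; ring
      rw [h11, h12]; exact h9
    exact Nat.dvd_of_mul_dvd_mul_left (pow_pos (by norm_num) n) h8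
  · rw [if_neg h2, mul_one]
    have h3 := hgen.1
    have h4 : (p : ℤ) ^ (2 * c) ∣ (p : ℤ) ^ n * k := by
      have h5 : (p : ℤ) ^ (2 * c) ∣ ((p : ℤ) ^ n) ^ 2 := by
        rw [← pow_mul]; exact pow_dvd_pow _ (by omega)
      have h6 := dvd_sub h5 h3
      rwa [sub_sub_cancel] at h6
    have h7 : p ^ (2 * c) ∣ p ^ n * k := by exact_mod_cast h4
    have h8 : p ^ n * p ^ n ∣ p ^ n * ((p ^ (n - c)) ^ 2 * k) := by
      have h9 := mul_dvd_mul_left (p ^ (2 * (n - c))) h7
      rw [← pow_add] at h9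
      have h10 : 2 * (n - c) + 2 * c = n + n := by omega
      rw [h10] at h9
      have h11 : p ^ n * p ^ n = p ^ (n + n) := by ring
      have h12 : p ^ n * ((p ^ (n - c)) ^ 2 * k) = p ^ (2 * (n - c)) * (p ^ n * k) := by
        rw [← pow_mul, mul_comm (n - c) 2]; ring
      rw [h11, h12]; exact h9
    exact Nat.dvd_of_mul_dvd_mul_left (pow_pos hp.pos n) h8

/-- The indicator function of the set of noncentral elements. -/
def noncentral (G : Type) [Group G] : G → ℤ := by
  classical exact fun x => if x ∈ Subgroup.center G then 0 else 1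

theorem pgroup_span {p : ℕ} (hp : p.Prime) (hG : IsPGroup p G) (hna : ∃ x y : G, x * y ≠ y * x)
    (hu : (fun x => (noncentral G x : ℚ)) ∈ spanQ (M G)) : p ∈ Ccomm G := by
  classical
  by_contra hpc
  have hle : rankQ (M G) ≤ rankMod p (M G) := by
    by_contra h
    exact hpc ⟨hp, not_le.1 h⟩
  obtain ⟨a, ha, haM⟩ := purity (M G) hp hle _ hu
  obtain ⟨v, hv⟩ := exists_of_mem haM
  obtain ⟨n, hn, hdata⟩ := pgroup_data hp hG
  have hZ := Subgroup.card_subgroup_dvd_card (Subgroup.center G)
  rw [hn] at hZ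
  obtain ⟨z, hzn, hz⟩ := (Nat.dvd_prime_pow hp).1 hZ
  have hzn' : z < n := by
    rcases hzn.lt_or_eq with h | h
    · exact h
    · exfalso
      rw [h, ← hn] at hz
      have h1 := (Subgroup.card_eq_iff_eq_top (Subgroup.center G)).1 hz
      obtain ⟨x, y, hxy⟩ := hna
      apply hxy
      have h2 : y ∈ Subgroup.center G := by rw [h1]; trivial
      exact Subgroup.mem_center_iff.1 h2 x
  have hgt : ∀ x : G, ∃ i, z + 1 ≤ i ∧ i ≤ n ∧ Nat.card {g : G // Commute g x} = p ^ i := by
    intro x
    obtain ⟨i, hin, h1, h2⟩ := hdata x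
    refine ⟨i, ?_, hin, h1⟩
    have hsub : Nat.card (Subgroup.center G) < Nat.card {g : G // Commute g x} := by
      by_cases hx : x ∈ Subgroup.center G
      · have h3 : Nat.card {g : G // Commute g x} = Nat.card G := by
          refine Nat.card_congr (Equiv.subtypeUnivEquiv fun g => ?_)
          exact Subgroup.mem_center_iff.1 hx g
        rw [h3, hn, hz]
        exact Nat.pow_lt_pow_right hp.one_lt hzn'
      · rw [Nat.card_eq_fintype_card, Nat.card_eq_fintype_card]
        refine Fintype.card_lt_of_injective_of_notMem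
          (fun s : Subgroup.center G => (⟨s.1, (Subgroup.mem_center_iff.1 s.2 x).symm⟩ :
            {g : G // Commute g x})) ?_ (b := ⟨x, Commute.refl x⟩) ?_
        · intro s t hst
          exact Subtype.ext (congrArg (fun q : {g : G // Commute g x} => q.1) hst)
        · rintro ⟨s, hs⟩
          apply hx
          have h3 := congrArg (fun q : {g : G // Commute g x} => q.1) hs
          simp only at h3
          rw [← h3]; exact s.2
    rw [hz, h1] at hsub
    exact (Nat.pow_lt_pow_iff_right hp.one_lt).1 hsub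
  have h1 : a * ∑ x : G, noncentral G x = ∑ g, v g * ∑ h, nc g h := by
    calc a * ∑ x : G, noncentral G x = ∑ x : G, (a • noncentral G) x := by
          rw [Finset.mul_sum]; rfl
      _ = ∑ h, ∑ g, v g * nc g h := by rw [hv]
      _ = ∑ g, v g * ∑ h, nc g h := by
          rw [Finset.sum_comm]
          exact Finset.sum_congr rfl fun g _ => (Finset.mul_sum _ _ _).symm
  have h2 : (p : ℤ) ^ (z + 1) ∣ ∑ g, v g * ∑ h, nc g h := by
    refine Finset.dvd_sum fun g _ => Dvd.dvd.mul_left ?_ _
    have h3 : ∑ h, nc g h = ∑ h, nc h g := Finset.sum_congr rfl fun h _ => nc_symm g h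
    rw [h3, sum_nc]
    obtain ⟨i, hi1, hi2, h4⟩ := hgt g
    rw [h4, hn]
    push_cast
    exact dvd_sub (pow_dvd_pow _ (by omega)) (pow_dvd_pow _ hi1)
  have h3 : ∑ x : G, noncentral G x = (p : ℤ) ^ n - (p : ℤ) ^ z := by
    have h4 : ∀ x : G, noncentral G x = 1 - if x ∈ Subgroup.center G then 1 else 0 := by
      intro x
      unfold noncentral
      by_cases hx : x ∈ Subgroup.center G
      · rw [if_pos hx, if_pos hx]; rfl
      · rw [if_neg hx, if_neg hx]; rfl
    rw [Finset.sum_congr rfl fun x _ => h4 x, Finset.sum_sub_distrib, Finset.sum_boole,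
      Finset.sum_const, Finset.card_univ, nsmul_eq_mul, mul_one, ← Nat.card_eq_fintype_card, hn]
    have h5 : #{x : G | x ∈ Subgroup.center G} = p ^ z := by
      rw [← hz, Nat.card_eq_fintype_card, Fintype.card_subtype]
    rw [h5]
    push_cast
    ring
  rw [← h1, h3] at h2
  have hpI : Prime (p : ℤ) := Nat.prime_iff_prime_int.1 hp
  have hcop : IsCoprime ((p : ℤ)) a := (hpI.coprime_iff_not_dvd).2 ha
  have h4 : (p : ℤ) ^ (z + 1) ∣ (p : ℤ) ^ n - (p : ℤ) ^ z := (hcop.pow_left).dvd_of_dvd_mul_left h2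
  have h5 : (p : ℤ) ^ (z + 1) ∣ (p : ℤ) ^ z := by
    have h6 := dvd_sub (pow_dvd_pow (p : ℤ) (show z + 1 ≤ n from hzn')) h4
    rwa [sub_sub_cancel] at h6
  have h6 : p ^ (z + 1) ∣ p ^ z := by exact_mod_cast h5
  have h7 := Nat.le_of_dvd (pow_pos hp.pos z) h6
  have h8 := Nat.pow_lt_pow_right hp.one_lt (Nat.lt_succ_self z)
  exact absurd h7 (not_le.2 h8)

theorem pgroup_equal {p : ℕ} (hp : p.Prime) (hG : IsPGroup p G) (hna : ∃ x y : G, x * y ≠ y * x)
    (s : ℕ) (hs : ∀ x ∉ Subgroup.center G, classSize x = s) : p ∈ Ccomm G := by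
  classical
  refine pgroup_span hp hG hna ?_
  obtain ⟨x₀, y₀, hxy⟩ := hna
  have hx₀ : x₀ ∉ Subgroup.center G := fun h => hxy (Subgroup.mem_center_iff.1 h y₀).symm
  have hcard : ∀ x ∉ Subgroup.center G,
      Nat.card {g : G // Commute g x} = Nat.card {g : G // Commute g x₀} := by
    intro x hx
    have h1 := classSize_mul x
    have h2 := classSize_mul x₀
    rw [hs x hx] at h1
    rw [hs x₀ hx₀, ← h1] at h2
    have h3 : 0 < s := by
      rcases Nat.eq_zero_or_pos s with h | h
      · rw [h, zero_mul] at h1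
        exact absurd h1.symm Nat.card_pos.ne'
      · exact h
    exact (Nat.eq_of_mul_eq_mul_left h3 h2).symm
  set κ : ℤ := (Nat.card G : ℤ) - Nat.card {g : G // Commute g x₀} with hκ
  have hκ0 : κ ≠ 0 := by
    intro h
    have h1 : Nat.card {g : G // Commute g x₀} = Nat.card G := by
      rw [h] at hκ; omega
    have h3 : Function.Surjective (Subtype.val : {g : G // Commute g x₀} → G) := by
      have h4 : Function.Bijective (Subtype.val : {g : G // Commute g x₀} → G) :=
        (Nat.bijective_iff_injective_and_card _).2 ⟨Subtype.val_injective, h1⟩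
      exact h4.2
    obtain ⟨⟨g, hg⟩, hgy⟩ := h3 y₀
    apply hxy
    rw [← hgy]
    exact hg.eq.symm
  have h1 : ∀ x : G, κ * noncentral G x = ∑ g, 1 * nc g x := by
    intro x
    unfold noncentral
    simp only [one_mul]
    by_cases hx : x ∈ Subgroup.center G
    · rw [if_pos hx, mul_zero]
      refine (Finset.sum_eq_zero fun g _ => ?_).symm
      rw [nc_symm]; exact nc_center hx g
    · rw [if_neg hx, mul_one, sum_nc, hcard x hx]
  have h2 := mem_spanQ (M G) (mem_M_of (fun _ : G => (1 : ℤ)))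
  have h3 : (fun x => (noncentral G x : ℚ)) =
      ((κ : ℚ))⁻¹ • (fun h => ((∑ g : G, 1 * nc g h : ℤ) : ℚ)) := by
    have hκ' : (κ : ℚ) ≠ 0 := by exact_mod_cast hκ0
    funext x
    rw [Pi.smul_apply, smul_eq_mul, ← h1 x, Int.cast_mul, ← mul_assoc, inv_mul_cancel₀ hκ', one_mul]
  rw [h3]
  exact Submodule.smul_mem _ _ h2

end PGroup

section Solvable

open scoped commutatorElement in
theorem exists_normal_pgroup {H : Type} [Group H] [Finite H] [Group.IsSolvable H] [Nontrivial H] :
    ∃ p : ℕ, p.Prime ∧ ∃ Q : Subgroup H, Q.Normal ∧ IsPGroup p Q ∧ Q ≠ ⊥ := by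
  classical
  obtain ⟨n, hn⟩ := Group.IsSolvable.solvable (G := H)
  have hex : ∃ n, derivedSeries H n = ⊥ := ⟨n, hn⟩
  obtain ⟨k, hk, hmin⟩ : ∃ k, derivedSeries H (k + 1) = ⊥ ∧ derivedSeries H k ≠ ⊥ := by
    have h1 := Nat.find_spec hex
    have h0 : Nat.find hex ≠ 0 := by
      intro h
      rw [h, derivedSeries_zero] at h1
      exact top_ne_bot h1
    obtain ⟨k, hk⟩ := Nat.exists_eq_succ_of_ne_zero h0
    refine ⟨k, ?_, fun h => ?_⟩
    · rw [hk] at h1; exact h1
    · have := Nat.find_min' hex h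
      omega
  set A := derivedSeries H k with hA
  have hAn : A.Normal := derivedSeries_normal H k
  have hcomm : ∀ a ∈ A, ∀ b ∈ A, a * b = b * a := by
    intro a ha b hb
    have h1 : ⁅a, b⁆ ∈ derivedSeries H (k + 1) := by
      rw [derivedSeries_succ]; exact Subgroup.commutator_mem_commutator ha hb
    rw [hk, Subgroup.mem_bot] at h1
    exact commutatorElement_eq_one_iff_mul_comm.1 h1
  obtain ⟨a, haA, ha1⟩ := (Subgroup.bot_or_exists_ne_one A).resolve_left hmin
  have hord : orderOf a ≠ 1 := fun h => ha1 (orderOf_eq_one_iff.1 h)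
  obtain ⟨p, hp, hpd⟩ := Nat.exists_prime_and_dvd hord
  obtain ⟨m, hm⟩ := hpd
  let Q : Subgroup H :=
    { carrier := {b | b ∈ A ∧ ∃ j, b ^ p ^ j = 1}
      mul_mem' := by
        rintro b c ⟨hb, i, hi⟩ ⟨hc, j, hj⟩
        refine ⟨A.mul_mem hb hc, i + j, ?_⟩
        have hbc : Commute b c := hcomm b hb c hc
        rw [hbc.mul_pow, pow_add, pow_mul, hi, one_pow, one_mul, mul_comm, pow_mul, hj, one_pow]
      one_mem' := ⟨A.one_mem, 0, by simp⟩
      inv_mem' := by
        rintro b ⟨hb, i, hi⟩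
        exact ⟨A.inv_mem hb, i, by rw [inv_pow, hi, inv_one]⟩ }
  refine ⟨p, hp, Q, ⟨?_⟩, ?_, ?_⟩
  · rintro b ⟨hb, i, hi⟩ g
    exact ⟨hAn.conj_mem b hb g, i, by rw [conj_pow, hi, mul_one, mul_inv_cancel]⟩
  · rintro ⟨b, hb, i, hi⟩
    exact ⟨i, Subtype.ext hi⟩
  · intro hbot
    have h1 : a ^ m ∈ Q := ⟨A.pow_mem haA m, 1, by
      rw [pow_one, ← pow_mul, mul_comm, ← hm, pow_orderOf_eq_one]⟩
    rw [hbot, Subgroup.mem_bot] at h1
    have h2 := orderOf_dvd_of_pow_eq_one h1
    have h3 : 0 < orderOf a := orderOf_pos a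
    rw [hm] at h2 h3
    have h4 : 0 < m := Nat.pos_of_mul_pos_left h3 
    have h5 := Nat.le_of_dvd h4 h2
    have h6 := hp.two_le
    nlinarith

theorem solvable_case {G : Type} [Group G] [Fintype G] (hs : Group.IsSolvable G)
    (hna : ∃ x y : G, x * y ≠ y * x) (hr : rankQ (M G) = Nat.card (Cent G)) :
    (Ccomm G).Nonempty := by
  have : Nontrivial (G ⧸ Subgroup.center G) := by
    obtain ⟨x, y, hxy⟩ := hna
    refine ⟨⟨(x : G ⧸ Subgroup.center G), 1, fun h => ?_⟩⟩
    exact hxy (Subgroup.mem_center_iff.1 ((QuotientGroup.eq_one_iff x).1 h) y).symm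
  have : Group.IsSolvable (G ⧸ Subgroup.center G) := inferInstance
  obtain ⟨p, hp, Q, hQn, hQp, hQ1⟩ := exists_normal_pgroup (H := G ⧸ Subgroup.center G)
  exact ⟨p, brauer hp hr Q hQp hQ1⟩

end Solvable

end

end H387CC
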