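import Pool.Agent.helper387_cc.Basic

/-!
Restriction of the noncommuting matrix to the centralizers normalized by a `p`-subgroup.
-/

namespace H387CC

open Finset

noncomputable section

variable {G : Type} [Group G]

theorem fixed_lemma [Fintype G] [Fintype (Cent G)] {p : ℕ} (hp : p.Prime) (R : Subgroup G)
    (hR : IsPGroup p R) (hr : rankQ (M G) = Nat.card (Cent G)) (hpc : p ∉ Ccomm G)
    (f : Cent G → ZMod p) (hf : ∀ (g : R) (C : Cent G), f (g • C) = f C)
    (hf0 : ∀ D ∈ MulAction.fixedPoints R (Cent G),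
      ∑ C, f C * ((nc (rep C) (rep D) : ℤ) : ZMod p) = 0) :
    ∀ C ∈ MulAction.fixedPoints R (Cent G), f C = 0 := by
  classical
  have := Fact.mk hp
  have hle : rankQ (M G) ≤ rankMod p (M G) := by
    by_contra h
    exact hpc ⟨hp, not_le.1 h⟩
  let b : Cent G → G → ZMod p := fun C g => ((nc (rep C) g : ℤ) : ZMod p)
  have hspan : Submodule.span (ZMod p)
      {w : G → ZMod p | ∃ v ∈ M G, w = fun g => (v g : ZMod p)} ≤
      Submodule.span (ZMod p) (Set.range b) := by
    rw [Submodule.span_le]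
    rintro _ ⟨v, hv, rfl⟩
    obtain ⟨x, rfl⟩ := exists_of_mem hv
    have h1 : (fun h => ((∑ g, x g * nc g h : ℤ) : ZMod p)) =
        ∑ g, ((x g : ℤ) : ZMod p) • (fun h => ((nc g h : ℤ) : ZMod p)) := by
      funext h
      simp [Finset.sum_apply]
    change (fun h => ((∑ g, x g * nc g h : ℤ) : ZMod p)) ∈ _
    rw [h1]
    refine Submodule.sum_mem _ fun g _ => Submodule.smul_mem _ _ ?_
    by_cases hg : g ∈ Subgroup.center G
    · have : (fun h => ((nc g h : ℤ) : ZMod p)) = 0 := by
        funext h; rw [nc_center hg h]; simp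
      rw [this]; exact Submodule.zero_mem _
    · refine Submodule.subset_span ⟨mkC g hg, ?_⟩
      funext h
      change ((nc (rep (mkC g hg)) h : ℤ) : ZMod p) = _
      rw [nc_of_cen_left (rep_eq (mkC g hg)).symm h]
  have hb : LinearIndependent (ZMod p) b := by
    rw [linearIndependent_iff_card_le_finrank_span, ← Nat.card_eq_fintype_card, ← hr]
    exact hle.trans (Submodule.finrank_mono hspan)
  have hinj : ∀ f : Cent G → ZMod p,
      (∀ D, ∑ C, f C * ((nc (rep C) (rep D) : ℤ) : ZMod p) = 0) → f = 0 := by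
    intro f hf
    funext C
    refine Fintype.linearIndependent_iff.1 hb f ?_ C
    funext y
    rw [Finset.sum_apply, Pi.zero_apply]
    by_cases hy : y ∈ Subgroup.center G
    · refine Finset.sum_eq_zero fun C _ => ?_
      change f C * ((nc (rep C) y : ℤ) : ZMod p) = 0
      rw [nc_symm, nc_center hy]; simp
    · rw [← hf (mkC y hy)]
      refine Finset.sum_congr rfl fun C _ => ?_
      change f C * ((nc (rep C) y : ℤ) : ZMod p) = _
      rw [nc_of_cen_right (rep_eq (mkC y hy)).symm]
  let Φ : (Cent G → ZMod p) → Cent G → ZMod p :=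
    fun f D => ∑ C, f C * ((nc (rep C) (rep D) : ℤ) : ZMod p)
  have hΦinv : ∀ f : Cent G → ZMod p, (∀ (g : R) (C : Cent G), f (g • C) = f C) →
      ∀ (g : R) (D : Cent G), Φ f (g • D) = Φ f D := by
    intro f hf g D
    change ∑ C, f C * ((nc (rep C) (rep (g • D)) : ℤ) : ZMod p) =
      ∑ C, f C * ((nc (rep C) (rep D) : ℤ) : ZMod p)
    rw [← Equiv.sum_comp (MulAction.toPerm g)]
    refine Finset.sum_congr rfl fun C _ => ?_
    rw [MulAction.toPerm_apply, hf g C]
    congr 2
    exact nc_smul (g : G) C D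
  have hΦfix : ∀ f : Cent G → ZMod p, (∀ (g : R) (C : Cent G), f (g • C) = f C) →
      (∀ C ∈ MulAction.fixedPoints R (Cent G), f C = 0) →
      ∀ D ∈ MulAction.fixedPoints R (Cent G), Φ f D = 0 := by
    intro f hf hf0 D hD
    refine sum_invariant hp hR _ ?_ ?_
    · intro g C
      rw [hf g C]
      congr 2
      have h1 := nc_smul (g : G) C D
      have h2 : (g : G) • D = D := hD g
      rw [h2] at h1
      exact h1
    · intro C hC
      rw [hf0 C hC, zero_mul]
  let W := {f : Cent G → ZMod p // (∀ (g : R) (C : Cent G), f (g • C) = f C) ∧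
    ∀ C ∈ MulAction.fixedPoints R (Cent G), f C = 0}
  let Ψ : W → W := fun f => ⟨Φ f.1, hΦinv f.1 f.2.1, hΦfix f.1 f.2.1 f.2.2⟩
  have hΦinj : ∀ f f' : Cent G → ZMod p, Φ f = Φ f' → f = f' := by
    intro f f' h
    have : f - f' = 0 := by
      apply hinj
      intro D
      have h1 := congrFun h D
      change ∑ C, f C * ((nc (rep C) (rep D) : ℤ) : ZMod p) =
        ∑ C, f' C * ((nc (rep C) (rep D) : ℤ) : ZMod p) at h1
      simp only [Pi.sub_apply, sub_mul, Finset.sum_sub_distrib]
      rw [h1, sub_self]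
    exact sub_eq_zero.1 this
  have hΨ : Function.Surjective Ψ := by
    apply Finite.surjective_of_injective
    intro f f' h
    exact Subtype.ext (hΦinj _ _ (congrArg Subtype.val h))
  obtain ⟨f', hf'⟩ := hΨ ⟨Φ f, hΦinv f hf, hf0⟩
  have hff : f'.1 = f := hΦinj _ _ (congrArg Subtype.val hf')
  intro C hC
  rw [← hff]
  exact f'.2.2 C hC

theorem mem_fixed_iff (R : Subgroup G) (C : Cent G) :
    C ∈ MulAction.fixedPoints R (Cent G) ↔ R ≤ Subgroup.normalizer (C.1 : Set G) := by
  have key : ∀ a g w : G, w ∈ Subgroup.centralizer {g * a * g⁻¹} ↔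
      g⁻¹ * w * g ∈ Subgroup.centralizer {a} := by
    intro a g w
    rw [mem_cen, mem_cen]
    constructor
    · intro h
      calc a * (g⁻¹ * w * g) = g⁻¹ * (g * a * g⁻¹ * w) * g := by group
        _ = g⁻¹ * (w * (g * a * g⁻¹)) * g := by rw [h]
        _ = _ := by group
    · intro h
      calc g * a * g⁻¹ * w = g * (a * (g⁻¹ * w * g)) * g⁻¹ := by group
        _ = g * (g⁻¹ * w * g * a) * g⁻¹ := by rw [h]
        _ = _ := by group
  constructor
  · intro h g hg
    have h1 := congrArg Subtype.val (h ⟨g, hg⟩)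
    have h2 : Subgroup.centralizer {g * rep C * g⁻¹} = C.1 := h1
    rw [Subgroup.mem_normalizer_iff]
    intro w
    change w ∈ C.1 ↔ g * w * g⁻¹ ∈ C.1
    conv_rhs => rw [← h2]
    rw [key]
    have h3 : g⁻¹ * (g * w * g⁻¹) * g = w := by group
    rw [h3, ← rep_eq C]
  · intro h g
    apply Subtype.ext
    change Subgroup.centralizer {(g : G) * rep C * (g : G)⁻¹} = C.1
    have h1 := h g.2
    rw [Subgroup.mem_normalizer_iff] at h1
    ext w
    rw [key, ← rep_eq C]
    have h2 := h1 ((g : G)⁻¹ * w * (g : G))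
    have h3 : (g : G) * ((g : G)⁻¹ * w * (g : G)) * (g : G)⁻¹ = w := by group
    rw [h3] at h2
    exact h2

theorem normalized_inj [Finite G] {p : ℕ} (hp : p.Prime) (R : Subgroup G)
    (hR : IsPGroup p R) (hr : rankQ (M G) = Nat.card (Cent G)) (hpc : p ∉ Ccomm G)
    (f : Cent G → ZMod p)
    (hf : ∀ C : Cent G, ¬ R ≤ Subgroup.normalizer (C.1 : Set G) → f C = 0)
    (hf0 : ∀ D : Cent G, R ≤ Subgroup.normalizer (D.1 : Set G) →
      ∀ y : G, Subgroup.centralizer {y} = D.1 → ∑ᶠ (C : Cent G) (_ : y ∉ C.1), f C = 0) :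
    f = 0 := by
  classical
  let _ : Fintype G := Fintype.ofFinite G
  let _ : Fintype (Cent G) := Fintype.ofFinite _
  have h1 := fixed_lemma hp R hR hr hpc f ?_ ?_
  · funext C
    by_cases hC : R ≤ Subgroup.normalizer (C.1 : Set G)
    · exact h1 C ((mem_fixed_iff R C).2 hC)
    · exact hf C hC
  · intro g C
    by_cases hC : C ∈ MulAction.fixedPoints R (Cent G)
    · rw [hC g]
    · have hC' : g • C ∉ MulAction.fixedPoints R (Cent G) := by
        intro h
        apply hC
        have h2 : C = g • C := by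
          have h3 := h g⁻¹
          rwa [inv_smul_smul] at h3
        rw [h2]; exact h
      rw [hf C (fun h => hC ((mem_fixed_iff R C).2 h)),
        hf (g • C) (fun h => hC' ((mem_fixed_iff R _).2 h))]
  · intro D hD
    have h2 := hf0 D ((mem_fixed_iff R D).1 hD) (rep D) (rep_eq D).symm
    rw [finsum_eq_sum_of_fintype] at h2
    rw [← h2]
    refine Finset.sum_congr rfl fun C _ => ?_
    rw [finsum_eq_if]
    have h3 : rep D ∈ C.1 ↔ rep C * rep D = rep D * rep C := by
      rw [rep_eq C, mem_cen]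
    by_cases h4 : rep D ∈ C.1
    · rw [if_neg (not_not.2 h4), (nc_eq_zero _ _).2 (h3.1 h4)]; simp
    · rw [if_pos h4]
      unfold nc
      rw [if_neg fun h5 => h4 (h3.2 h5)]; simp

theorem unique_normalized [Finite G] {p : ℕ} (hp : p.Prime) (R : Subgroup G)
    (hR : IsPGroup p R) (hr : rankQ (M G) = Nat.card (Cent G))
    (hu : ∃! C : Cent G, R ≤ Subgroup.normalizer (C.1 : Set G)) : p ∈ Ccomm G := by
  classical
  by_contra hpc
  have := Fact.mk hp
  obtain ⟨C, hC, huniq⟩ := hu
  have hz : ∀ C' : Cent G, ¬ R ≤ Subgroup.normalizer (C'.1 : Set G) →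
      (fun C' : Cent G => if C' = C then (1 : ZMod p) else 0) C' = 0 := by
    intro C' hC'
    change (if C' = C then (1 : ZMod p) else 0) = 0
    rw [if_neg]
    rintro rfl
    exact hC' hC
  have hs : ∀ D : Cent G, R ≤ Subgroup.normalizer (D.1 : Set G) →
      ∀ y : G, Subgroup.centralizer {y} = D.1 →
      ∑ᶠ (C' : Cent G) (_ : y ∉ C'.1),
        (fun C' : Cent G => if C' = C then (1 : ZMod p) else 0) C' = 0 := by
    intro D hD y hy
    have hDC : D = C := huniq D hD
    have hyC : y ∈ C.1 := by rw [← hDC, ← hy, mem_cen]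
    have h3 : ∀ C' : Cent G, ∑ᶠ (_ : y ∉ C'.1),
        (fun C' : Cent G => if C' = C then (1 : ZMod p) else 0) C' = 0 := by
      intro C'
      rw [finsum_eq_if]
      by_cases h4 : C' = C
      · rw [h4, if_neg (not_not.2 hyC)]
      · change (if y ∉ C'.1 then (if C' = C then (1 : ZMod p) else 0) else 0) = 0
        rw [if_neg h4, ite_self]
    rw [finsum_congr h3, finsum_zero]
  have h1 := normalized_inj hp R hR hr hpc _ hz hs
  have h2 := congrFun h1 C
  change (if C = C then (1 : ZMod p) else 0) = 0 at h2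
  rw [if_pos rfl] at h2
  exact one_ne_zero h2

end

end H387CC
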